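import Pool.Agent.helper16.FJ.Class

set_option autoImplicit false

/-!
# Classes of groups with the inheritance properties of Farrell-Jones groups: more closure lemmas
-/

namespace Pool.Agent.helper28.GF

open Pool.Agent.helper16.FJ

/-- virtually cyclic subgroup -/
def VCyc {Q : Type} [Group Q] (C : Subgroup Q) : Prop := ∃ Z : Subgroup C, Z.FiniteIndex ∧ IsCyclic Z

/-- inheritance properties, solvable groups, extension property -/
structure Cls (P : ∀ (G : Type) [Group G], Prop) : Prop extends Inherit P where
  /-- solvable groups -/
  solvable : ∀ (G : Type) [Group G], Group.IsSolvable G → P G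
  /-- the extension property -/
  extension : ∀ (G Q : Type) [Group G] [Group Q] (f : G →* Q), P Q →
    (∀ C : Subgroup Q, VCyc C → P (C.comap f)) → P G

/-- transport of elements between members of a family -/
def castHom {ι : Type} {B : ι → Type} [∀ i, Group (B i)] {i a : ι} (h : i = a) : B i →* B a := by
  subst h; exact MonoidHom.id _

theorem castHom_rfl {ι : Type} {B : ι → Type} [∀ i, Group (B i)] {i : ι} (h : i = i) :
    castHom (B := B) h = MonoidHom.id _ := rfl

namespace Cls

variable {P : ∀ (G : Type) [Group G], Prop} (hP : Cls P)
include hP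

theorem mono {G : Type} [Group G] {H K : Subgroup G} (h : H ≤ K) (hK : P K) : P H :=
  hP.of_injective (Subgroup.inclusion h) (Subgroup.inclusion_injective h) hK

/-- overgroups of finite index, for subgroups of a group -/
theorem of_relIndex {G : Type} [Group G] {H K : Subgroup G} (h : H.relIndex K ≠ 0) (hle : H ≤ K)
    (hH : P H) : P K := by
  refine hP.overgroup K (H.subgroupOf K) ⟨h⟩ ?_
  exact hP.of_mulEquiv (Subgroup.subgroupOfEquivOfLe hle).symm hH

/-- the preimage of a virtually cyclic subgroup is in the class if the preimage of every cyclic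
subgroup is -/
theorem comap_vcyc {G Q : Type} [Group G] [Group Q] (f : G →* Q) {C : Subgroup Q} (hC : VCyc C)
    (h : ∀ q : Q, q ∈ C → P ((Subgroup.zpowers q).comap f)) : P (C.comap f) := by
  obtain ⟨Z, hZ, hcyc⟩ := hC
  obtain ⟨⟨z, hz⟩, hgen⟩ := hcyc.exists_generator
  have hle : Subgroup.zpowers (z : Q) ≤ C := by
    rw [Subgroup.zpowers_le]; exact z.2
  have hmap : Z.map C.subtype = Subgroup.zpowers (z : Q) := by
    ext x
    constructor
    · rintro ⟨y, hy, rfl⟩
      obtain ⟨k, hk⟩ := hgen ⟨y, hy⟩
      refine ⟨k, ?_⟩
      have := congrArg (fun t : Z => ((t : C) : Q)) hk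
      simpa using this
    · rintro ⟨k, rfl⟩
      exact ⟨z ^ k, Z.zpow_mem hz k, by simp⟩
  refine hP.of_relIndex (H := (Subgroup.zpowers (z : Q)).comap f) ?_ (Subgroup.comap_mono hle)
    (h _ z.2)
  rw [← hmap]
  have h1 : (Z.map C.subtype).relIndex C ≠ 0 := by
    have h2 : (Z.map C.subtype).subgroupOf C = Z := by
      ext x; simp [Subgroup.mem_subgroupOf]
    rw [Subgroup.relIndex, h2]
    exact hZ.index_ne_zero
  intro h0
  apply h1
  rw [Subgroup.relIndex_comap] at h0
  exact Subgroup.relIndex_eq_zero_of_le_right (Subgroup.map_comap_le f C) h0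

/-- extensions of a group in the class by a solvable group -/
theorem solvable_by {G Q : Type} [Group G] [Group Q] (f : G →* Q) (hQ : P Q)
    (hs : Group.IsSolvable f.ker) : P G := by
  refine hP.extension G Q f hQ fun C hC => hP.comap_vcyc f hC fun q _ => ?_
  apply hP.solvable
  -- kernel of the restriction to the preimage of the cyclic group
  let g : (Subgroup.zpowers q).comap f →* Subgroup.zpowers q := f.subgroupComap _
  have hker : Group.IsSolvable g.ker := by
    let φ : g.ker →* f.ker :=
      { toFun := fun x => ⟨((x : (Subgroup.zpowers q).comap f) : G), by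
          have := x.2
          rw [MonoidHom.mem_ker] at this ⊢
          exact congrArg Subtype.val this⟩
        map_one' := rfl
        map_mul' := fun _ _ => rfl }
    refine Group.isSolvable_of_isSolvable_injective (f := φ) ?_
    intro x y hxy
    apply Subtype.ext
    apply Subtype.ext
    exact congrArg (fun t : f.ker => (t : G)) hxy
  have hcyc : Group.IsSolvable (Subgroup.zpowers q) := by
    refine Group.isSolvable_of_comm ?_
    rintro ⟨a, k, rfl⟩ ⟨b, l, rfl⟩
    apply Subtype.ext
    exact zpow_mul_comm q k l
  exact Group.isSolvable_of_ker_le_range g.ker.subtype g (by simp)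

/-- free products of arbitrary families -/
theorem coprodI {ι : Type} (B : ι → Type) [∀ i, Group (B i)] (hB : ∀ i, P (B i)) :
    P (Monoid.CoprodI B) := by
  classical
  -- finite subfamilies
  have hfin : ∀ s : Finset ι, P (Monoid.CoprodI (fun i : s => B i)) := by
    intro s
    induction s using Finset.induction_on with
    | empty =>
      have : Subsingleton (Monoid.CoprodI (fun i : (∅ : Finset ι) => B i)) := ⟨fun x y => by
        have h : ∀ z : Monoid.CoprodI (fun i : (∅ : Finset ι) => B i), z = 1 := fun z => by
          induction z using Monoid.CoprodI.induction_on with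
          | one => rfl
          | of i => exact absurd i.2 (Finset.notMem_empty _)
          | mul x y hx hy => rw [hx, hy, one_mul]
        rw [h x, h y]⟩
      exact hP.trivial_group _
    | insert a s ha ih =>
      let f : Monoid.CoprodI (fun i : (insert a s : Finset ι) => B i) →*
          Monoid.Coprod (B a) (Monoid.CoprodI (fun i : s => B i)) :=
        Monoid.CoprodI.lift (fun i => if h : i.1 = a then Monoid.Coprod.inl.comp (castHom h) else
          Monoid.Coprod.inr.comp (Monoid.CoprodI.of (M := fun i : s => B i)
            (i := ⟨i.1, (Finset.mem_insert.1 i.2).resolve_left h⟩)))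
      let g : Monoid.Coprod (B a) (Monoid.CoprodI (fun i : s => B i)) →*
          Monoid.CoprodI (fun i : (insert a s : Finset ι) => B i) :=
        Monoid.Coprod.lift (Monoid.CoprodI.of (M := fun i : (insert a s : Finset ι) => B i)
            (i := ⟨a, Finset.mem_insert_self a s⟩))
          (Monoid.CoprodI.lift (fun i => Monoid.CoprodI.of
            (M := fun i : (insert a s : Finset ι) => B i)
            (i := ⟨i.1, Finset.mem_insert_of_mem i.2⟩)))
      have hgf : g.comp f = MonoidHom.id _ := by
        apply Monoid.CoprodI.ext_hom
        rintro ⟨i, hi⟩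
        by_cases h : i = a
        · subst h
          ext x
          simp [f, g, castHom_rfl]
        · ext x
          simp [f, g, h]
      exact hP.of_injective f (Function.LeftInverse.injective (g := g)
        fun z => DFunLike.congr_fun hgf z) (hP.coprod _ _ (hB a) ih)
  -- the whole free product is a directed union
  let j : ∀ s : Finset ι, Monoid.CoprodI (fun i : s => B i) →* Monoid.CoprodI B := fun s =>
    Monoid.CoprodI.lift (fun i => Monoid.CoprodI.of)
  have hj : ∀ s, Function.Injective (j s) := by
    intro s
    let r : Monoid.CoprodI B →* Monoid.CoprodI (fun i : s => B i) :=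
      Monoid.CoprodI.lift (fun i => if h : i ∈ s then
        Monoid.CoprodI.of (M := fun i : s => B i) (i := ⟨i, h⟩) else 1)
    have hr : r.comp (j s) = MonoidHom.id _ := by
      apply Monoid.CoprodI.ext_hom
      rintro ⟨i, hi⟩
      ext x
      simp [r, j, hi]
    exact Function.LeftInverse.injective (g := r) fun z => DFunLike.congr_fun hr z
  have hmono : ∀ s t : Finset ι, s ⊆ t → (j s).range ≤ (j t).range := by
    intro s t hst
    rintro _ ⟨x, rfl⟩
    induction x using Monoid.CoprodI.induction_on with
    | one => rw [map_one]; exact one_mem _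
    | of i m =>
      exact ⟨Monoid.CoprodI.of (M := fun i : t => B i) (i := ⟨i.1, hst i.2⟩) m, by simp [j]⟩
    | mul x y hx hy => rw [map_mul]; exact mul_mem hx hy
  have htop : P (⊤ : Subgroup (Monoid.CoprodI B)) := by
    refine hP.of_directed_union (ι := Finset ι) (fun s => (j s).range) ?_ ⊤ ?_ ?_
    · intro s t
      exact ⟨s ∪ t, hmono _ _ Finset.subset_union_left, hmono _ _ Finset.subset_union_right⟩
    · intro g _
      induction g using Monoid.CoprodI.induction_on with
      | one => exact ⟨∅, one_mem _⟩
      | of i m => exact ⟨{i}, Monoid.CoprodI.of (M := fun i : ({i} : Finset ι) => B i)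
          (i := ⟨i, Finset.mem_singleton_self i⟩) m, by simp [j]⟩
      | mul x y hx hy =>
        obtain ⟨s, hs⟩ := hx trivial
        obtain ⟨t, ht⟩ := hy trivial
        exact ⟨s ∪ t, mul_mem (hmono _ _ Finset.subset_union_left hs)
          (hmono _ _ Finset.subset_union_right ht)⟩
    · intro s
      exact hP.of_mulEquiv (MonoidHom.ofInjective (hj s)) (hfin s)
  exact hP.of_mulEquiv Subgroup.topEquiv htop

end Cls

end Pool.Agent.helper28.GF
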