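import Pool.Agent.helper28.GF.Free

set_option autoImplicit false

/-!
# Subgroups of `GE₂(R)` over an augmented algebra with a degree function
-/

namespace Pool.Agent.helper28.GF

open Pool.Agent.helper16.FJ Monoid Matrix
open scoped OnePoint

theorem relIndex_zpowers {K : Type} [Group K] (q : K) {k : ℤ} (hk : k ≠ 0) :
    (Subgroup.zpowers (q ^ k)).relIndex (Subgroup.zpowers q) ≠ 0 := by
  rw [← Subgroup.range_zpowersHom q, ← Subgroup.index_comap]
  set H := (Subgroup.zpowers (q ^ k)).comap (zpowersHom K q) with hH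
  have hfin : Finite (Multiplicative ℤ ⧸ H) := by
    refine Finite.of_surjective (fun i : Fin (Int.natAbs k) =>
      (QuotientGroup.mk (Multiplicative.ofAdd (i : ℤ)) : Multiplicative ℤ ⧸ H)) ?_
    intro z
    obtain ⟨z, rfl⟩ := QuotientGroup.mk_surjective z
    have h0 : 0 ≤ Multiplicative.toAdd z % k := Int.emod_nonneg _ hk
    have h1 : Multiplicative.toAdd z % k < |k| := Int.emod_lt_abs _ hk
    refine ⟨⟨(Multiplicative.toAdd z % k).toNat, ?_⟩, ?_⟩
    · have : ((Multiplicative.toAdd z % k).toNat : ℤ) < (k.natAbs : ℤ) := by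
        rw [Int.toNat_of_nonneg h0, Int.natCast_natAbs]; exact h1
      exact_mod_cast this
    · rw [QuotientGroup.eq]
      refine ⟨Multiplicative.toAdd z / k, ?_⟩
      show (q ^ k) ^ (Multiplicative.toAdd z / k) = q ^ (-(((Multiplicative.toAdd z % k).toNat : ℕ) : ℤ) +
        Multiplicative.toAdd z)
      rw [Int.toNat_of_nonneg h0, ← _root_.zpow_mul]
      congr 1
      have := Int.emod_add_mul_ediv (Multiplicative.toAdd z) k
      linarith
  exact Subgroup.index_ne_zero_of_finite

/-- multiplication by a unit of the ground field -/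
def uA {F M : Type} [Field F] [AddCommGroup M] [Module F M] :
    Fˣ →* MulAut (Multiplicative M) where
  toFun l :=
    { toFun := fun x => Multiplicative.ofAdd ((l : F) • Multiplicative.toAdd x)
      invFun := fun x => Multiplicative.ofAdd (((l⁻¹ : Fˣ) : F) • Multiplicative.toAdd x)
      left_inv := fun x => by
        show Multiplicative.ofAdd (((l⁻¹ : Fˣ) : F) • ((l : F) • Multiplicative.toAdd x)) = x
        rw [smul_smul]; simp
      right_inv := fun x => by
        show Multiplicative.ofAdd ((l : F) • (((l⁻¹ : Fˣ) : F) • Multiplicative.toAdd x)) = x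
        rw [smul_smul]; simp
      map_mul' := fun x y => by
        show Multiplicative.ofAdd ((l : F) • (Multiplicative.toAdd x + Multiplicative.toAdd y)) = _
        rw [smul_add]; rfl }
  map_one' := by
    ext x
    show Multiplicative.ofAdd (((1 : Fˣ) : F) • Multiplicative.toAdd x) = x
    simp
  map_mul' l m := by
    ext x
    show Multiplicative.ofAdd (((l * m : Fˣ) : F) • Multiplicative.toAdd x) =
      Multiplicative.ofAdd ((l : F) • ((m : F) • Multiplicative.toAdd x))
    rw [smul_smul]; simp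

theorem uA_apply {F M : Type} [Field F] [AddCommGroup M] [Module F M] (l : Fˣ)
    (x : Multiplicative M) : uA l x = Multiplicative.ofAdd ((l : F) • Multiplicative.toAdd x) := rfl

theorem uA_fix {F M : Type} [Field F] [AddCommGroup M] [Module F M] (l : Fˣ) (hl : (l : F) ≠ 1)
    (w : Multiplicative M) : ∃! a : Multiplicative M, w * uA l a = a := by
  have hsub : 1 - (l : F) ≠ 0 := sub_ne_zero.2 (Ne.symm hl)
  refine ⟨Multiplicative.ofAdd ((1 - (l : F))⁻¹ • Multiplicative.toAdd w), ?_, ?_⟩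
  · show Multiplicative.toAdd w + (l : F) • ((1 - (l : F))⁻¹ • Multiplicative.toAdd w) =
      (1 - (l : F))⁻¹ • Multiplicative.toAdd w
    have h7 : Multiplicative.toAdd w =
        (1 - (l : F)) • ((1 - (l : F))⁻¹ • Multiplicative.toAdd w) := by
      rw [smul_smul, mul_inv_cancel₀ hsub, one_smul]
    generalize (1 - (l : F))⁻¹ • Multiplicative.toAdd w = z at h7 ⊢
    rw [h7, sub_smul, one_smul]
    abel
  · intro a ha
    have ha' : Multiplicative.toAdd w + (l : F) • Multiplicative.toAdd a =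
      Multiplicative.toAdd a := ha
    have h8 : Multiplicative.toAdd w = (1 - (l : F)) • Multiplicative.toAdd a := by
      rw [sub_smul, one_smul, eq_sub_iff_add_eq]
      exact ha'
    rw [h8, smul_smul, inv_mul_cancel₀ hsub, one_smul]
    rfl

section ka

variable {F R : Type} [Field F] [Ring R] [Algebra F R]

/-- constant matrices -/
def ka : GL (Fin 2) F →* (Matrix (Fin 2) (Fin 2) R)ˣ :=
  Units.map (algebraMap F R).mapMatrix.toMonoidHom

theorem ka_val (h : GL (Fin 2) F) : ((ka h : (Matrix (Fin 2) (Fin 2) R)ˣ) :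
    Matrix (Fin 2) (Fin 2) R) = tens (h : Matrix (Fin 2) (Fin 2) F) 1 := map_eq_tens _

theorem ka_conj [DecidableEq F] (h : GL (Fin 2) F) (c : OnePoint F) :
    ∃ l : F, l ≠ 0 ∧ ((h : Matrix (Fin 2) (Fin 2) F) * nl c = (l • nl (h • c)) * h) ∧
      ∀ x : R, (ka h : (Matrix (Fin 2) (Fin 2) R)ˣ) * Aug.uu c x * (ka h)⁻¹ =
        Aug.uu (h • c) (l • x) := by
  obtain ⟨l, hl, e⟩ := nl_conj h c
  refine ⟨l, hl, e, fun x => ?_⟩
  rw [mul_inv_eq_iff_eq_mul]
  apply Units.ext
  rw [Units.val_mul, Units.val_mul, ka_val, Aug.uu_val, Aug.uu_val, mul_add, add_mul, tens_mul,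
    tens_mul, e]
  simp only [mul_one, one_mul, Matrix.smul_mul, smul_tens]

theorem ka_central {h : GL (Fin 2) F} (hh : Scal h) (x : (Matrix (Fin 2) (Fin 2) R)ˣ) :
    ka h * x = x * ka h := by
  obtain ⟨h1, h2, h3⟩ := hh
  apply Units.ext
  rw [Units.val_mul, Units.val_mul, ka_val]
  ext i j
  simp only [Matrix.mul_apply, Fin.sum_univ_two, tens_apply]
  fin_cases i <;> fin_cases j <;> simp [h1, h2, h3]

end ka

namespace Aug

variable {F R : Type} [Field F] [Ring R] [Algebra F R] (A : Aug F R)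

/-- reduction modulo the augmentation ideal -/
def pi : (Matrix (Fin 2) (Fin 2) R)ˣ →* GL (Fin 2) F :=
  Units.map (A.ε : R →+* F).mapMatrix.toMonoidHom

theorem pi_ka (h : GL (Fin 2) F) : A.pi (ka h) = h := by
  apply Units.ext
  ext i j
  show A.ε (algebraMap F R (h i j)) = h i j
  exact A.ε.commutes _

theorem pi_uH (c : OnePoint F) (x : A.E) : A.pi (A.uH c x) = 1 := by
  apply Units.ext
  ext i j
  show A.ε ((1 + tens (nl c) (A.tr x)) i j) = (1 : Matrix (Fin 2) (Fin 2) F) i j
  rw [Matrix.add_apply, tens_apply, map_add, map_smul]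
  have : A.ε (A.tr x) = 0 := A.mem_E x
  rw [this, smul_zero, add_zero, Matrix.one_apply, Matrix.one_apply]
  split_ifs
  · exact map_one _
  · exact map_zero _

/-- the group generated by the unipotent groups of the points -/
def N : Subgroup (Matrix (Fin 2) (Fin 2) R)ˣ := ⨆ c, (A.uH c).range

theorem N_le_ker : A.N ≤ A.pi.ker := by
  refine iSup_le fun c => ?_
  rintro _ ⟨x, rfl⟩
  exact A.pi_uH c x

theorem conj_mem [DecidableEq F] (h : GL (Fin 2) F) (c : OnePoint F)
    (b : (Matrix (Fin 2) (Fin 2) R)ˣ) (hb : b ∈ (A.uH c).range) :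
    ka h * b * (ka h)⁻¹ ∈ (A.uH (h • c)).range := by
  obtain ⟨x, rfl⟩ := hb
  obtain ⟨l, hl, -, e⟩ := ka_conj (R := R) h c
  refine ⟨Multiplicative.ofAdd (l • Multiplicative.toAdd x), ?_⟩
  rw [uH_apply, uH_apply, e]
  rfl

theorem N_conj (h : GL (Fin 2) F) {x : (Matrix (Fin 2) (Fin 2) R)ˣ} (hx : x ∈ A.N) :
    ka h * x * (ka h)⁻¹ ∈ A.N := by
  classical
  have h1 : A.N.map (MulAut.conj (ka h : (Matrix (Fin 2) (Fin 2) R)ˣ)).toMonoidHom ≤ A.N := by
    rw [N, Subgroup.map_iSup]
    refine iSup_le fun c => ?_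
    rintro _ ⟨b, hb, rfl⟩
    exact (le_iSup (fun c => (A.uH c).range) (h • c)) (A.conj_mem h c b hb)
  exact h1 ⟨x, hx, rfl⟩

/-- the group generated by the constants and the unipotent groups -/
def V : Subgroup (Matrix (Fin 2) (Fin 2) R)ˣ := A.N ⊔ (ka (F := F) (R := R)).range

theorem nf {x : (Matrix (Fin 2) (Fin 2) R)ˣ} (hx : x ∈ A.V) : x * (ka (A.pi x))⁻¹ ∈ A.N := by
  let V' : Subgroup (Matrix (Fin 2) (Fin 2) R)ˣ :=
    { carrier := {x | x * (ka (A.pi x))⁻¹ ∈ A.N}
      one_mem' := by simp [one_mem]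
      mul_mem' := by
        intro x y hx hy
        have h1 := mul_mem hx (A.N_conj (A.pi x) hy)
        show x * y * (ka (A.pi (x * y)))⁻¹ ∈ A.N
        convert h1 using 1
        rw [map_mul, map_mul]
        group
      inv_mem' := by
        intro x hx
        have h1 := A.N_conj (A.pi x)⁻¹ (inv_mem hx)
        show x⁻¹ * (ka (A.pi x⁻¹))⁻¹ ∈ A.N
        convert h1 using 1
        rw [map_inv, map_inv]
        group }
  have h1 : A.V ≤ V' := by
    refine sup_le ?_ ?_
    · intro x hx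
      show x * (ka (A.pi x))⁻¹ ∈ A.N
      have : A.pi x = 1 := A.N_le_ker hx
      rw [this, map_one, inv_one, mul_one]
      exact hx
    · rintro _ ⟨h, rfl⟩
      show ka h * (ka (A.pi (ka h)))⁻¹ ∈ A.N
      rw [A.pi_ka, mul_inv_cancel]
      exact one_mem _
  exact h1 hx

variable {P : ∀ (G : Type) [Group G], Prop} (hP : Cls P)
include hP

theorem P_range (c : OnePoint F) : P (A.uH c).range := by
  refine hP.solvable _ (Group.isSolvable_of_comm ?_)
  rintro ⟨_, x, rfl⟩ ⟨_, y, rfl⟩
  apply Subtype.ext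
  show A.uH c x * A.uH c y = A.uH c y * A.uH c x
  rw [← map_mul, mul_comm, map_mul]

theorem P_N : P A.N := by
  have h1 : A.N = MonoidHom.range (G := CoprodI (fun _ : OnePoint F => A.E))
      (CoprodI.lift A.uH) := by
    rw [CoprodI.range_eq_iSup]; rfl
  rw [h1]
  refine hP.of_mulEquiv (MonoidHom.ofInjective A.lift_uH_injective) (hP.coprodI _ fun _ => ?_)
  exact hP.solvable _ (Group.isSolvable_of_comm fun a b => mul_comm a b)

theorem P_scal {q : GL (Fin 2) F} (hq : Scal q) :
    P (A.N ⊔ Subgroup.zpowers (ka q) : Subgroup (Matrix (Fin 2) (Fin 2) R)ˣ) := by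
  let Φ : A.N × Subgroup.zpowers (ka q : (Matrix (Fin 2) (Fin 2) R)ˣ) →*
      (Matrix (Fin 2) (Fin 2) R)ˣ :=
    { toFun := fun x => (x.1 : (Matrix (Fin 2) (Fin 2) R)ˣ) * (x.2 : (Matrix (Fin 2) (Fin 2) R)ˣ)
      map_one' := by simp
      map_mul' := by
        rintro ⟨n, s, hs⟩ ⟨n', s', hs'⟩
        obtain ⟨k, rfl⟩ := hs
        show (n : (Matrix (Fin 2) (Fin 2) R)ˣ) * (n' : (Matrix (Fin 2) (Fin 2) R)ˣ) *
          ((ka q) ^ k * s') = (n : (Matrix (Fin 2) (Fin 2) R)ˣ) * (ka q) ^ k *
          ((n' : (Matrix (Fin 2) (Fin 2) R)ˣ) * s')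
        have hc : (ka q : (Matrix (Fin 2) (Fin 2) R)ˣ) ^ k * (n' : (Matrix (Fin 2) (Fin 2) R)ˣ) =
            (n' : (Matrix (Fin 2) (Fin 2) R)ˣ) * (ka q) ^ k :=
          ((show Commute (ka q : (Matrix (Fin 2) (Fin 2) R)ˣ) (n' : (Matrix (Fin 2) (Fin 2) R)ˣ)
            from ka_central hq _).zpow_left k).eq
        simp only [mul_assoc]
        rw [← mul_assoc (n' : (Matrix (Fin 2) (Fin 2) R)ˣ) _ s', ← hc, mul_assoc] }
  have hΦ : Function.Injective Φ := by
    rw [injective_iff_map_eq_one]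
    rintro ⟨n, s, hs⟩ h
    obtain ⟨k, rfl⟩ := hs
    have h : (n : (Matrix (Fin 2) (Fin 2) R)ˣ) * (ka q) ^ k = 1 := h
    have h1 := congrArg A.pi h
    rw [map_mul, map_one, map_zpow, A.pi_ka, show A.pi n = 1 from A.N_le_ker n.2, one_mul] at h1
    have h2 : (ka q : (Matrix (Fin 2) (Fin 2) R)ˣ) ^ k = 1 := by rw [← map_zpow, h1, map_one]
    rw [h2, mul_one] at h
    exact Prod.ext (Subtype.ext h) (Subtype.ext h2)
  have hs : P (Subgroup.zpowers (ka q : (Matrix (Fin 2) (Fin 2) R)ˣ)) := by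
    refine hP.solvable _ (Group.isSolvable_of_comm ?_)
    rintro ⟨a, k, rfl⟩ ⟨b, l, rfl⟩
    apply Subtype.ext
    exact zpow_mul_comm _ k l
  refine hP.mono (K := Φ.range) ?_ (hP.of_mulEquiv (MonoidHom.ofInjective hΦ)
    (hP.prod _ _ (A.P_N hP) hs))
  refine sup_le ?_ ?_
  · intro n hn
    exact ⟨(⟨n, hn⟩, 1), by simp [Φ]⟩
  · intro s hs
    exact ⟨(1, ⟨s, hs⟩), by simp [Φ]⟩

theorem P_two [DecidableEq F] {t : GL (Fin 2) F} (ht : ∀ k : ℤ, k ≠ 0 → ¬ Scal (t ^ k))
    {c1 c2 : OnePoint F} (h12 : c1 ≠ c2) (h1 : t • c1 = c1) (h2 : t • c2 = c2) :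
    P ((A.uH c1).range ⊔ (A.uH c2).range ⊔ Subgroup.zpowers (ka t) :
      Subgroup (Matrix (Fin 2) (Fin 2) R)ˣ) := by
  classical
  obtain ⟨l1, hl1, e1, f1⟩ := ka_conj (R := R) t c1
  obtain ⟨l2, hl2, e2, f2⟩ := ka_conj (R := R) t c2
  rw [h1] at e1 f1
  rw [h2] at e2 f2
  let α : MulAut A.E := uA (Units.mk0 l1 hl1)
  let β : MulAut A.E := uA (Units.mk0 l2 hl2)
  let θ : MulAut (Coprod A.E A.E) := MulEquiv.coprodCongr α β
  let j : Coprod A.E A.E →* (Matrix (Fin 2) (Fin 2) R)ˣ := Coprod.lift (A.uH c1) (A.uH c2)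
  have hj1 : ∀ x, j (Coprod.inl x) = A.uH c1 x := fun x => Coprod.lift_apply_inl _ _ _
  have hj2 : ∀ x, j (Coprod.inr x) = A.uH c2 x := fun x => Coprod.lift_apply_inr _ _ _
  have hθ1 : ∀ x, θ (Coprod.inl x) = Coprod.inl (α x) := fun x => rfl
  have hθ2 : ∀ x, θ (Coprod.inr x) = Coprod.inr (β x) := fun x => rfl
  have hj : Function.Injective j := by
    let i : Coprod A.E A.E →* CoprodI (fun _ : OnePoint F => A.E) :=
      Coprod.lift (CoprodI.of (M := fun _ : OnePoint F => A.E) (i := c1))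
        (CoprodI.of (M := fun _ : OnePoint F => A.E) (i := c2))
    let r : CoprodI (fun _ : OnePoint F => A.E) →* Coprod A.E A.E :=
      CoprodI.lift (fun c => if c = c1 then Coprod.inl else Coprod.inr)
    have hri : r.comp i = MonoidHom.id _ := by
      apply Coprod.hom_ext
      · ext x
        simp [r, i]
      · ext x
        simp [r, i, h12.symm]
    have hji : j = (CoprodI.lift A.uH).comp i := by
      apply Coprod.hom_ext
      · apply MonoidHom.ext
        intro x
        show j (Coprod.inl x) = CoprodI.lift A.uH (i (Coprod.inl x))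
        rw [hj1, show i (Coprod.inl x) = CoprodI.of (M := fun _ : OnePoint F => A.E) x from Coprod.lift_apply_inl _ _ _,
          CoprodI.lift_of]
      · apply MonoidHom.ext
        intro x
        show j (Coprod.inr x) = CoprodI.lift A.uH (i (Coprod.inr x))
        rw [hj2, show i (Coprod.inr x) = CoprodI.of (M := fun _ : OnePoint F => A.E) x from Coprod.lift_apply_inr _ _ _,
          CoprodI.lift_of]
    rw [hji]
    exact A.lift_uH_injective.comp (Function.LeftInverse.injective (g := r)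
      fun z => DFunLike.congr_fun hri z)
  have hcomp : ∀ x, j (θ x) = ka t * j x * (ka t)⁻¹ := by
    intro x
    have : j.comp θ.toMonoidHom = (MulAut.conj (ka t : (Matrix (Fin 2) (Fin 2) R)ˣ)).toMonoidHom.comp j := by
      apply Coprod.hom_ext
      · apply MonoidHom.ext
        intro x
        show j (θ (Coprod.inl x)) = ka t * j (Coprod.inl x) * (ka t)⁻¹
        rw [hθ1, hj1, hj1, uH_apply, uH_apply, f1]
        rfl
      · apply MonoidHom.ext
        intro x
        show j (θ (Coprod.inr x)) = ka t * j (Coprod.inr x) * (ka t)⁻¹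
        rw [hθ2, hj2, hj2, uH_apply, uH_apply, f2]
        rfl
    exact DFunLike.congr_fun this x
  let Ψ : Coprod A.E A.E ⋊[zpowersHom _ θ] Multiplicative ℤ →* (Matrix (Fin 2) (Fin 2) R)ˣ :=
    SemidirectProduct.lift j (zpowersHom _ (ka t)) (by
      intro g
      apply MonoidHom.ext
      intro x
      exact compat_zpow θ j (ka t) hcomp (Multiplicative.toAdd g) x)
  have hΨ : ∀ x, Ψ x = j x.left * (ka t) ^ (Multiplicative.toAdd x.right) := fun x => rfl
  have hjN : MonoidHom.range (G := Coprod A.E A.E) j ≤ A.N := by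
    rw [Coprod.range_lift]
    exact sup_le (le_iSup (fun c => (A.uH c).range) c1) (le_iSup (fun c => (A.uH c).range) c2)
  have hone : Scal (1 : GL (Fin 2) F) := by
    refine ⟨?_, ?_, ?_⟩ <;> simp
  have hΨi : Function.Injective Ψ := by
    rw [injective_iff_map_eq_one]
    intro x hx
    rw [hΨ] at hx
    have h3 := congrArg A.pi hx
    rw [map_mul, map_one, map_zpow, A.pi_ka,
      show A.pi (j x.left) = 1 from A.N_le_ker (hjN ⟨_, rfl⟩), one_mul] at h3
    have h4 : Multiplicative.toAdd x.right = 0 := by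
      by_contra h
      exact ht _ h (h3 ▸ hone)
    rw [h4, zpow_zero, mul_one] at hx
    apply SemidirectProduct.ext
    · exact hj (by rw [hx, SemidirectProduct.one_left, map_one])
    · exact h4
  have hΨl : ∀ x, Ψ (SemidirectProduct.inl x) = j x := fun x => SemidirectProduct.lift_inl _ _ _ x
  have hΨr : ∀ x, Ψ (SemidirectProduct.inr x) = zpowersHom _ (ka t) x :=
    fun x => SemidirectProduct.lift_inr _ _ _ x
  clear_value Ψ
  refine hP.mono (K := Ψ.range) ?_ (hP.of_mulEquiv (MonoidHom.ofInjective hΨi) ?_)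
  · refine sup_le (sup_le ?_ ?_) ?_
    · rintro _ ⟨x, rfl⟩
      exact ⟨SemidirectProduct.inl (Coprod.inl x), by rw [hΨl, hj1]⟩
    · rintro _ ⟨x, rfl⟩
      exact ⟨SemidirectProduct.inl (Coprod.inr x), by rw [hΨl, hj2]⟩
    · rw [Subgroup.zpowers_le]
      refine ⟨SemidirectProduct.inr (Multiplicative.ofAdd 1), ?_⟩
      rw [hΨr]
      show (ka t) ^ (1 : ℤ) = ka t
      rw [zpow_one]
  · refine hP.kur (fun a b => mul_comm a b) (fun a b => mul_comm a b) α β ?_ θ hθ1 hθ2
    intro k hk w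
    have hne : l1 ^ k ≠ 1 := by
      intro h
      have hn : l1 ^ (k.natAbs) = 1 := by
        rcases Int.natAbs_eq k with h' | h'
        · rw [h', zpow_natCast] at h; exact h
        · rw [h', _root_.zpow_neg, zpow_natCast, inv_eq_one] at h; exact h
      have hpow : ∀ n : ℕ, (t : Matrix (Fin 2) (Fin 2) F) ^ n * nl c1 =
          (l1 ^ n • nl c1) * (t : Matrix (Fin 2) (Fin 2) F) ^ n := by
        intro n
        induction n with
        | zero => simp
        | succ n ih =>
          rw [pow_succ, mul_assoc, e1, Matrix.smul_mul, Matrix.mul_smul, ← mul_assoc, ih]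
          rw [Matrix.smul_mul, Matrix.smul_mul, Matrix.smul_mul, smul_smul, pow_succ', mul_assoc]
      have h5 := hpow k.natAbs
      rw [hn, one_smul] at h5
      have hfix : ∀ (n : ℕ) {c : OnePoint F}, t • c = c → t ^ n • c = c := by
        intro n c hc
        induction n with
        | zero => rw [pow_zero, one_smul]
        | succ n ih => rw [pow_succ, mul_smul, hc, ih]
      have h6 : Scal (t ^ k.natAbs) := scal_of_comm _ (hfix _ h1) (hfix _ h2) h12 (by
        rw [Units.val_pow_eq_pow_val]; exact h5)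
      exact ht (k.natAbs : ℤ) (by exact_mod_cast Int.natAbs_ne_zero.2 hk) (by
        rw [zpow_natCast]; exact h6)
    have h9 : α ^ k = uA ((Units.mk0 l1 hl1) ^ k) := (map_zpow uA _ _).symm
    rw [h9]
    refine uA_fix _ ?_ w
    rw [Units.val_zpow_eq_zpow_val, Units.val_mk0]
    exact hne

end Aug

end Pool.Agent.helper28.GF
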