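import Pool.Agent.helper28.GF.Mat

set_option autoImplicit false

/-!
# The unipotent groups of the points of the projective line generate their free product
-/

namespace Pool.Agent.helper28.GF

open Pool.Agent.helper16.FJ Monoid Matrix
open scoped OnePoint

section tens

variable {F R : Type} [Field F] [Ring R] [Algebra F R]

/-- tensor of a matrix and a ring element -/
def tens (m : Matrix (Fin 2) (Fin 2) F) (x : R) : Matrix (Fin 2) (Fin 2) R :=
  Matrix.of fun i j => m i j • x

theorem tens_apply (m : Matrix (Fin 2) (Fin 2) F) (x : R) (i j : Fin 2) :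
    tens m x i j = m i j • x := rfl

theorem tens_mul (m m' : Matrix (Fin 2) (Fin 2) F) (x y : R) :
    tens m x * tens m' y = tens (m * m') (x * y) := by
  ext i j
  simp only [tens, Matrix.mul_apply, Fin.sum_univ_two, Matrix.of_apply, add_smul,
    smul_mul_smul_comm]

theorem tens_add (m : Matrix (Fin 2) (Fin 2) F) (x y : R) :
    tens m (x + y) = tens m x + tens m y := by
  ext i j; simp [tens]

theorem tens_zero (m : Matrix (Fin 2) (Fin 2) F) : tens m (0 : R) = 0 := by
  ext i j; simp [tens]

theorem zero_tens (x : R) : tens (0 : Matrix (Fin 2) (Fin 2) F) x = 0 := by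
  ext i j; simp [tens]

theorem tens_neg (m : Matrix (Fin 2) (Fin 2) F) (x : R) : tens m (-x) = - tens m x := by
  ext i j; simp [tens]

theorem smul_tens (a : F) (m : Matrix (Fin 2) (Fin 2) F) (x : R) :
    tens (a • m) x = tens m (a • x) := by
  ext i j; simp [tens, smul_smul, mul_comm]

theorem map_eq_tens (m : Matrix (Fin 2) (Fin 2) F) :
    m.map (algebraMap F R) = tens m 1 := by
  ext i j; simp [tens, Algebra.algebraMap_eq_smul_one]

end tens

theorem expand {F R : Type} [Field F] [Ring R] [Algebra F R] (a b : F) (p q y z : R) :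
    p * q - (a * b) • (y * z) =
    (p - a • y) * (q - b • z) + (a • (y * (q - b • z)) + b • ((p - a • y) * z)) := by
  simp only [sub_mul, mul_sub, smul_sub, smul_mul_assoc, mul_smul_comm, smul_smul, mul_comm b a]
  abel

/-- augmented algebras with a degree function -/
structure Aug (F R : Type) [Field F] [Ring R] [Algebra F R] where
  /-- augmentation -/
  ε : R →ₐ[F] F
  /-- degree -/
  d : R → WithBot ℕ
  d_mul : ∀ x y, d (x * y) = d x + d y
  d_add : ∀ x y, d (x + y) ≤ max (d x) (d y)
  d_bot : ∀ x, d x = ⊥ ↔ x = 0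
  d_const : ∀ a : F, d (algebraMap F R a) ≤ 0
  d_pos : ∀ x, ε x = 0 → x ≠ 0 → 0 < d x

theorem wb_add_lt {a b c e : WithBot ℕ} (h1 : a < b) (h2 : c < e) : a + c < b + e := by
  induction b with
  | bot => exact absurd h1 (not_lt_bot)
  | coe b =>
    induction e with
    | bot => exact absurd h2 (not_lt_bot)
    | coe e =>
      induction a with
      | bot => rw [WithBot.bot_add]; exact WithBot.bot_lt_coe _
      | coe a =>
        induction c with
        | bot => rw [WithBot.add_bot]; exact WithBot.bot_lt_coe _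
        | coe c =>
          rw [← WithBot.coe_add, ← WithBot.coe_add]
          rw [WithBot.coe_lt_coe] at *
          omega

theorem wb_add_lt' {a b e : WithBot ℕ} (h1 : a < b) (h2 : ⊥ < e) : a + e < b + e := by
  induction e with
  | bot => exact absurd h2 (lt_irrefl _)
  | coe e =>
    induction b with
    | bot => exact absurd h1 (not_lt_bot)
    | coe b =>
      induction a with
      | bot => rw [WithBot.bot_add]; exact WithBot.bot_lt_coe _
      | coe a =>
        rw [← WithBot.coe_add, ← WithBot.coe_add]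
        rw [WithBot.coe_lt_coe] at *
        omega

namespace Aug

variable {F R : Type} [Field F] [Ring R] [Algebra F R] (A : Aug F R)

include A in
theorem nontriv : (1 : R) ≠ 0 := by
  intro h
  have := congrArg A.ε h
  rw [map_one, map_zero] at this
  exact one_ne_zero this

theorem d_zero : A.d 0 = ⊥ := (A.d_bot 0).2 rfl

theorem d_unit {a : F} (ha : a ≠ 0) : A.d (algebraMap F R a) = 0 := by
  have h1 := A.d_const a
  have h2 : A.d (algebraMap F R a) ≠ ⊥ := by
    rw [Ne, A.d_bot]
    intro h
    have h3 := congrArg A.ε h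
    rw [map_zero, AlgHom.commutes] at h3
    exact ha h3
  revert h1 h2
  generalize A.d (algebraMap F R a) = z
  intro h1 h2
  induction z with
  | bot => exact absurd rfl h2
  | coe z =>
    have h3 : z ≤ 0 := WithBot.coe_le_coe.1 h1
    have h4 : z = 0 := by omega
    rw [h4]; rfl

theorem d_smul {a : F} (ha : a ≠ 0) (x : R) : A.d (a • x) = A.d x := by
  rw [Algebra.smul_def, A.d_mul, A.d_unit ha, zero_add]

theorem d_smul_le (a : F) (x : R) : A.d (a • x) ≤ A.d x := by
  by_cases ha : a = 0
  · rw [ha, zero_smul, A.d_zero]; exact bot_le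
  · exact (A.d_smul ha x).le

theorem lt_add {D : WithBot ℕ} {x y : R} (hx : A.d x < D) (hy : A.d y < D) : A.d (x + y) < D :=
  lt_of_le_of_lt (A.d_add x y) (max_lt hx hy)

/-- the augmentation ideal as a multiplicative group -/
abbrev E : Type := Multiplicative (LinearMap.ker A.ε.toLinearMap)

/-- the underlying ring element -/
def tr (x : A.E) : R := ((Multiplicative.toAdd x : LinearMap.ker A.ε.toLinearMap) : R)

/-- the elementary unit -/
def uu (c : OnePoint F) (x : R) : (Matrix (Fin 2) (Fin 2) R)ˣ where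
  val := 1 + tens (nl c) x
  inv := 1 - tens (nl c) x
  val_inv := by
    rw [add_mul, one_mul, mul_sub, mul_one, tens_mul, nl_mul_self, zero_tens]; simp
  inv_val := by
    rw [sub_mul, one_mul, mul_add, mul_one, tens_mul, nl_mul_self, zero_tens]; simp

theorem uu_val (c : OnePoint F) (x : R) : ((uu c x : (Matrix (Fin 2) (Fin 2) R)ˣ) :
    Matrix (Fin 2) (Fin 2) R) = 1 + tens (nl c) x := rfl

theorem uu_mul (c : OnePoint F) (x y : R) : (uu c x : (Matrix (Fin 2) (Fin 2) R)ˣ) * uu c y =
    uu c (x + y) := by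
  apply Units.ext
  rw [Units.val_mul, uu_val, uu_val, uu_val, add_mul, one_mul, mul_add, mul_one, tens_mul,
    nl_mul_self, zero_tens, tens_add, add_zero]
  abel

theorem uu_zero (c : OnePoint F) : (uu c (0 : R) : (Matrix (Fin 2) (Fin 2) R)ˣ) = 1 := by
  apply Units.ext
  rw [uu_val, tens_zero, add_zero]; rfl

/-- the unipotent group of a point -/
def uH (c : OnePoint F) : A.E →* (Matrix (Fin 2) (Fin 2) R)ˣ where
  toFun x := uu c (A.tr x)
  map_one' := uu_zero c
  map_mul' x y := by
    rw [uu_mul]; rfl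

theorem uH_apply (c : OnePoint F) (x : A.E) : A.uH c x = uu c (A.tr x) := rfl

theorem mem_E (x : A.E) : A.ε (A.tr x) = 0 :=
  LinearMap.mem_ker.1 (Multiplicative.toAdd x).2

/-- the leading term of a reduced word -/
theorem lead {i j : OnePoint F} (w : CoprodI.NeWord (fun _ : OnePoint F => A.E) i j) :
    ∃ y : R, 0 < A.d y ∧ ∀ a b, A.d (((CoprodI.lift A.uH w.prod : (Matrix (Fin 2) (Fin 2) R)ˣ) :
      Matrix (Fin 2) (Fin 2) R) a b - (vc i a * cv j b) • y) < A.d y := by
  induction w with
  | @singleton i x hx =>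
    have hx0 : A.tr x ≠ 0 := by
      intro h
      apply hx
      have h2 : Multiplicative.toAdd x = 0 := Subtype.ext h
      exact h2
    have hpos := A.d_pos _ (A.mem_E x) hx0
    refine ⟨(A.tr x), hpos, fun a b => ?_⟩
    rw [CoprodI.NeWord.prod_singleton, CoprodI.lift_of, uH_apply, uu_val]
    have : (1 + tens (nl i) (A.tr x)) a b -
        (vc i a * cv i b) • (A.tr x) = (1 : Matrix (Fin 2) (Fin 2) R) a b := by
      rw [Matrix.add_apply, tens_apply]
      simp [nl]
    rw [this]
    refine lt_of_le_of_lt ?_ hpos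
    rw [Matrix.one_apply]
    split_ifs
    · have := A.d_const 1
      rwa [map_one] at this
    · rw [A.d_zero]; exact bot_le
  | @append i j k l w1 hjk w2 ih1 ih2 =>
    obtain ⟨y1, hy1, h1⟩ := ih1
    obtain ⟨y2, hy2, h2⟩ := ih2
    set g := cv j 0 * vc k 0 + cv j 1 * vc k 1 with hg
    have hg0 : g ≠ 0 := cv_vc_ne hjk
    have hd : A.d (g • (y1 * y2)) = A.d y1 + A.d y2 := by rw [A.d_smul hg0, A.d_mul]
    have hb1 : ⊥ < A.d y1 := lt_of_le_of_lt bot_le hy1
    have hb2 : ⊥ < A.d y2 := lt_of_le_of_lt bot_le hy2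
    refine ⟨g • (y1 * y2), ?_, fun a b => ?_⟩
    · rw [hd]
      have := wb_add_lt hy1 hy2
      rwa [zero_add] at this
    · rw [CoprodI.NeWord.append_prod, map_mul, Units.val_mul, Matrix.mul_apply, Fin.sum_univ_two, hd]
      generalize ((CoprodI.lift A.uH w1.prod : (Matrix (Fin 2) (Fin 2) R)ˣ) :
        Matrix (Fin 2) (Fin 2) R) = M1 at h1 ⊢
      generalize ((CoprodI.lift A.uH w2.prod : (Matrix (Fin 2) (Fin 2) R)ˣ) :
        Matrix (Fin 2) (Fin 2) R) = M2 at h2 ⊢
      have hs : ∀ s, A.d (M1 a s * M2 s b - ((vc i a * cv j s) * (vc k s * cv l b)) • (y1 * y2)) <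
          A.d y1 + A.d y2 := by
        intro s
        have e : M1 a s * M2 s b - ((vc i a * cv j s) * (vc k s * cv l b)) • (y1 * y2) =
            (M1 a s - (vc i a * cv j s) • y1) * (M2 s b - (vc k s * cv l b) • y2) +
            (((vc i a * cv j s) • (y1 * (M2 s b - (vc k s * cv l b) • y2))) +
            ((vc k s * cv l b) • ((M1 a s - (vc i a * cv j s) • y1) * y2))) := by
          exact expand _ _ _ _ _ _
        rw [e]
        refine A.lt_add ?_ (A.lt_add ?_ ?_)
        · rw [A.d_mul]; exact wb_add_lt (h1 a s) (h2 s b)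
        · refine lt_of_le_of_lt (A.d_smul_le _ _) ?_
          rw [A.d_mul, add_comm, add_comm (A.d y1)]
          exact wb_add_lt' (h2 s b) hb1
        · refine lt_of_le_of_lt (A.d_smul_le _ _) ?_
          rw [A.d_mul]
          exact wb_add_lt' (h1 a s) hb2
      have e : M1 a 0 * M2 0 b + M1 a 1 * M2 1 b - (vc i a * cv l b) • g • (y1 * y2) =
          (M1 a 0 * M2 0 b - ((vc i a * cv j 0) * (vc k 0 * cv l b)) • (y1 * y2)) +
          (M1 a 1 * M2 1 b - ((vc i a * cv j 1) * (vc k 1 * cv l b)) • (y1 * y2)) := by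
        rw [smul_smul]
        have : vc i a * cv l b * g = (vc i a * cv j 0) * (vc k 0 * cv l b) +
            (vc i a * cv j 1) * (vc k 1 * cv l b) := by rw [hg]; ring
        rw [this, add_smul]
        abel
      rw [e]
      exact A.lt_add (hs 0) (hs 1)

theorem lift_uH_injective : Function.Injective (CoprodI.lift A.uH) := by
  classical
  rw [injective_iff_map_eq_one]
  rw [(CoprodI.Word.equiv).forall_congr_left]
  intro w hw
  dsimp [CoprodI.Word.equiv] at *
  by_contra hne
  have hnotempty : w ≠ CoprodI.Word.empty := by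
    rintro rfl
    exact hne (by rw [CoprodI.Word.prod_empty])
  obtain ⟨i, j, w, rfl⟩ := CoprodI.NeWord.of_word w hnotempty
  obtain ⟨y, hy, h⟩ := A.lead w
  have hw' : CoprodI.lift A.uH w.prod = 1 := hw
  rw [hw'] at h
  obtain ⟨a, ha⟩ := vc_ne i
  obtain ⟨b, hb⟩ := cv_ne j
  have h1 := h a b
  have h2 : A.d ((vc i a * cv j b) • y) = A.d y := A.d_smul (mul_ne_zero ha hb) y
  have h3 : A.d (((1 : (Matrix (Fin 2) (Fin 2) R)ˣ) : Matrix (Fin 2) (Fin 2) R) a b) ≤ 0 := by
    rw [Units.val_one, Matrix.one_apply]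
    split_ifs
    · have := A.d_const 1
      rwa [map_one] at this
    · rw [A.d_zero]; exact bot_le
  have h4 : (vc i a * cv j b) • y =
      ((1 : (Matrix (Fin 2) (Fin 2) R)ˣ) : Matrix (Fin 2) (Fin 2) R) a b +
      (-1 : F) • ((((1 : (Matrix (Fin 2) (Fin 2) R)ˣ) : Matrix (Fin 2) (Fin 2) R) a b -
        (vc i a * cv j b) • y)) := by
    rw [neg_one_smul]; abel
  have h5 : A.d ((vc i a * cv j b) • y) < A.d y := by
    rw [h4]
    exact A.lt_add (lt_of_le_of_lt h3 hy) (lt_of_le_of_lt (A.d_smul_le _ _) h1)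
  rw [h2] at h5
  exact lt_irrefl _ h5

end Aug

end Pool.Agent.helper28.GF
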