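import Pool.Agent.helper28.GF.Core

set_option autoImplicit false

/-!
# Subgroups of `GE₂(R)` over an augmented algebra with a degree function: the main result
-/

namespace Pool.Agent.helper28.GF

open Pool.Agent.helper16.FJ Monoid Matrix
open scoped OnePoint

theorem scal_one {F : Type} [Field F] : Scal (1 : GL (Fin 2) F) := by
  refine ⟨?_, ?_, ?_⟩ <;> simp

theorem exists_pow {F : Type} [Field F] [DecidableEq F] {q : GL (Fin 2) F}
    (hq : ∀ k : ℤ, k ≠ 0 → ¬ Scal (q ^ k)) :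
    ∃ k : ℤ, k ≠ 0 ∧ ∀ (c : OnePoint F) (j : ℤ), j ≠ 0 → (q ^ k) ^ j • c = c → q ^ k • c = c := by
  have hpow : ∀ (c : OnePoint F) (k j : ℤ), q ^ k • c = c → q ^ (k * j) • c = c := by
    intro c k j h
    rw [_root_.zpow_mul]
    have h1 : q ^ k ∈ MulAction.stabilizer (GL (Fin 2) F) c := h
    exact zpow_mem h1 j
  by_cases h0 : ∃ c : OnePoint F, ∃ k : ℤ, k ≠ 0 ∧ q ^ k • c = c
  swap
  · refine ⟨1, one_ne_zero, fun c j hj h => absurd ⟨c, 1 * j, mul_ne_zero one_ne_zero hj, ?_⟩ h0⟩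
    rw [_root_.zpow_mul]; exact h
  obtain ⟨c1, k1, hk1, h1⟩ := h0
  by_cases h0 : ∃ c : OnePoint F, c ≠ c1 ∧ ∃ k : ℤ, k ≠ 0 ∧ q ^ k • c = c
  swap
  · refine ⟨k1, hk1, fun c j hj h => ?_⟩
    by_cases hc : c = c1
    · rw [hc]; exact h1
    · exact absurd ⟨c, hc, k1 * j, mul_ne_zero hk1 hj, by rw [_root_.zpow_mul]; exact h⟩ h0
  obtain ⟨c2, h12, k2, hk2, h2⟩ := h0
  have e1 : q ^ (k1 * k2) • c1 = c1 := hpow _ _ _ h1
  have e2 : q ^ (k1 * k2) • c2 = c2 := by rw [mul_comm]; exact hpow _ _ _ h2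
  refine ⟨k1 * k2, mul_ne_zero hk1 hk2, fun c j hj h => ?_⟩
  by_cases hc1 : c = c1
  · rw [hc1]; exact e1
  by_cases hc2 : c = c2
  · rw [hc2]; exact e2
  exfalso
  rw [← _root_.zpow_mul] at h
  exact hq (k1 * k2 * j) (mul_ne_zero (mul_ne_zero hk1 hk2) hj)
    (scal_of_fix _ (hpow _ _ _ e1) (hpow _ _ _ e2) h h12.symm (Ne.symm hc1) (Ne.symm hc2))

namespace Aug

variable {F R : Type} [Field F] [Ring R] [Algebra F R] (A : Aug F R)
  {P : ∀ (G : Type) [Group G], Prop} (hP : Cls P)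
include hP

theorem P_t {t : GL (Fin 2) F} [DecidableEq F] (ht : ∀ k : ℤ, k ≠ 0 → ¬ Scal (t ^ k))
    (horb : ∀ (c : OnePoint F) (j : ℤ), j ≠ 0 → t ^ j • c = c → t • c = c) :
    P (A.N ⊔ Subgroup.zpowers (ka t) : Subgroup (Matrix (Fin 2) (Fin 2) R)ˣ) := by
  let σ : Equiv.Perm (OnePoint F) := MulAction.toPerm t
  have hσ : ∀ c, σ c = t • c := fun c => rfl
  have hσ' : ∀ c, σ.symm c = t⁻¹ • c := fun c => rfl
  have hσk : ∀ (k : ℤ) c, (σ ^ k) c = t ^ k • c := by
    intro k c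
    have : σ ^ k = MulAction.toPerm (t ^ k) :=
      (map_zpow (MulAction.toPermHom (GL (Fin 2) F) (OnePoint F)) t k).symm
    rw [this]; rfl
  refine hP.orb (fun c => (A.uH c).range) σ (ka t) ?_ ?_ ?_ ?_ ?_ ?_ ?_
  · intro c b hb
    exact A.conj_mem t c b hb
  · intro c b hb
    have h1 := A.conj_mem t⁻¹ c b hb
    rw [map_inv, inv_inv] at h1
    exact h1
  · exact lift_range_injective A.uH A.lift_uH_injective
  · intro k hk
    by_contra h0
    have h1 : A.pi ((ka t) ^ k) = 1 := A.N_le_ker hk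
    rw [map_zpow, A.pi_ka] at h1
    exact ht k h0 (h1 ▸ scal_one)
  · intro c k hk hc
    rw [hσk] at hc
    exact horb c k hk hc
  · exact fun c => A.P_range hP c
  · by_cases h0 : ∃ c : OnePoint F, t • c = c
    · obtain ⟨c1, h1⟩ := h0
      by_cases h0 : ∃ c : OnePoint F, c ≠ c1 ∧ t • c = c
      · obtain ⟨c2, h12, h2⟩ := h0
        refine hP.mono ?_ (A.P_two hP ht h12.symm h1 h2)
        refine sup_le (iSup_le ?_) le_sup_right
        rintro ⟨c, hc⟩
        refine le_trans ?_ le_sup_left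
        by_cases hc1 : c = c1
        · rw [← hc1]; exact le_sup_left
        by_cases hc2 : c = c2
        · rw [← hc2]; exact le_sup_right
        exfalso
        apply ht 1 one_ne_zero
        rw [zpow_one]
        exact scal_of_fix _ h1 h2 hc h12.symm (Ne.symm hc1) (Ne.symm hc2)
      · refine hP.mono (K := (A.uH c1).range ⊔ Subgroup.zpowers (ka t)) ?_ (hP.solvable _ ?_)
        · refine sup_le (iSup_le ?_) le_sup_right
          rintro ⟨c, hc⟩
          by_cases hc1 : c = c1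
          · rw [← hc1]; exact le_sup_left
          · exact absurd ⟨c, hc1, hc⟩ h0
        · apply solvable_sup
          · rintro _ ⟨x, rfl⟩ _ ⟨y, rfl⟩
            rw [← map_mul, mul_comm, map_mul]
          · intro b hb
            have h2 := A.conj_mem t c1 b hb
            rwa [h1] at h2
          · intro b hb
            have h2 := A.conj_mem t⁻¹ c1 b hb
            rw [map_inv, inv_inv] at h2
            have h3 : t⁻¹ • c1 = c1 := by rw [inv_smul_eq_iff, h1]
            rwa [h3] at h2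
    · refine hP.mono (K := Subgroup.zpowers (ka t)) ?_ (hP.solvable _ ?_)
      · refine sup_le (iSup_le ?_) le_rfl
        rintro ⟨c, hc⟩
        exact absurd ⟨c, hc⟩ h0
      · refine Group.isSolvable_of_comm ?_
        rintro ⟨a, k, rfl⟩ ⟨b, l, rfl⟩
        apply Subtype.ext
        exact zpow_mul_comm _ k l

theorem of_pow {q : GL (Fin 2) F} {k : ℤ} (hk : k ≠ 0)
    (h : P (A.N ⊔ Subgroup.zpowers (ka (q ^ k)) : Subgroup (Matrix (Fin 2) (Fin 2) R)ˣ)) :
    P ((Subgroup.zpowers q).comap (A.pi.comp A.V.subtype)) := by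
  have hle : Subgroup.zpowers (q ^ k) ≤ Subgroup.zpowers q := by
    rw [Subgroup.zpowers_le]; exact ⟨k, rfl⟩
  refine hP.of_relIndex (H := (Subgroup.zpowers (q ^ k)).comap (A.pi.comp A.V.subtype)) ?_
    (Subgroup.comap_mono hle) ?_
  · rw [Subgroup.relIndex_comap]
    intro h0
    exact relIndex_zpowers q hk (Subgroup.relIndex_eq_zero_of_le_right (Subgroup.map_comap_le _ _) h0)
  · let f : (Subgroup.zpowers (q ^ k)).comap (A.pi.comp A.V.subtype) →*
        (A.N ⊔ Subgroup.zpowers (ka (q ^ k)) : Subgroup (Matrix (Fin 2) (Fin 2) R)ˣ) :=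
      { toFun := fun x => ⟨((x : A.V) : (Matrix (Fin 2) (Fin 2) R)ˣ), by
          obtain ⟨⟨x, hxV⟩, j, hj⟩ := x
          have hj : (q ^ k) ^ j = A.pi x := hj
          have h1 := A.nf hxV
          have h2 : x = (x * (ka (A.pi x))⁻¹) * (ka (q ^ k)) ^ j := by
            rw [← map_zpow, hj]; group
          show x ∈ _
          rw [h2]
          exact mul_mem ((le_sup_left : A.N ≤ _) h1) ((le_sup_right : Subgroup.zpowers _ ≤ _) ⟨j, rfl⟩)⟩
        map_one' := rfl
        map_mul' := fun _ _ => rfl }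
    refine hP.of_injective f ?_ h
    intro x y hxy
    apply Subtype.ext
    apply Subtype.ext
    exact congrArg (fun z : (A.N ⊔ Subgroup.zpowers (ka (q ^ k)) :
      Subgroup (Matrix (Fin 2) (Fin 2) R)ˣ) => (z : (Matrix (Fin 2) (Fin 2) R)ˣ)) hxy

theorem P_cyc (q : GL (Fin 2) F) : P ((Subgroup.zpowers q).comap (A.pi.comp A.V.subtype)) := by
  classical
  by_cases h : ∃ k : ℤ, k ≠ 0 ∧ Scal (q ^ k)
  · obtain ⟨k, hk, hs⟩ := h
    exact A.of_pow hP hk (A.P_scal hP hs)
  · have hq : ∀ k : ℤ, k ≠ 0 → ¬ Scal (q ^ k) := fun k hk hs => h ⟨k, hk, hs⟩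
    obtain ⟨k, hk, horb⟩ := exists_pow hq
    refine A.of_pow hP hk (A.P_t hP ?_ horb)
    intro j hj
    rw [← _root_.zpow_mul]
    exact hq _ (mul_ne_zero hk hj)

/-- **Main theorem**: a subgroup of `GE₂(R)` is in the class when its image in `GL₂(F)` is. -/
theorem main (G : Subgroup (Matrix (Fin 2) (Fin 2) R)ˣ) (hG : G ≤ A.V)
    (h : P (G.map A.pi)) : P G := by
  let f : G →* G.map A.pi := A.pi.subgroupMap G
  refine hP.extension _ _ f h fun C hC => hP.comap_vcyc f hC fun q _ => ?_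
  let g : (Subgroup.zpowers q).comap f →*
      (Subgroup.zpowers (q : GL (Fin 2) F)).comap (A.pi.comp A.V.subtype) :=
    { toFun := fun x => ⟨⟨((x : G) : (Matrix (Fin 2) (Fin 2) R)ˣ), hG (x : G).2⟩, by
        obtain ⟨⟨x, hx⟩, j, hj⟩ := x
        refine ⟨j, ?_⟩
        have h1 := congrArg (fun z : G.map A.pi => (z : GL (Fin 2) F)) hj
        have h2 : (q : GL (Fin 2) F) ^ j = A.pi x := h1
        exact h2⟩
      map_one' := rfl
      map_mul' := fun _ _ => rfl }
  refine hP.of_injective g ?_ (A.P_cyc hP q)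
  intro x y hxy
  apply Subtype.ext
  apply Subtype.ext
  exact congrArg (fun z : (Subgroup.zpowers (q : GL (Fin 2) F)).comap (A.pi.comp A.V.subtype) =>
    ((z : A.V) : (Matrix (Fin 2) (Fin 2) R)ˣ)) hxy

end Aug

end Pool.Agent.helper28.GF
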