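import Pool.Agent.helper28.GF.Ring

set_option autoImplicit false

/-!
# Graded rings
-/

namespace Pool.Agent.helper28.GF

open Pool.Agent.helper16.FJ Monoid Matrix
open scoped Polynomial

/-- rings which map injectively to a polynomial ring -/
theorem of_coaction {P : ∀ (G : Type) [Group G], Prop} (hP : Cls P) {A B : Type} [CommRing A]
    [CommRing B] (φ : A →+* B[X]) (hφ : Function.Injective φ) (G : Subgroup (GL (Fin 2) A))
    (h : P (G.map (Matrix.GeneralLinearGroup.map (n := Fin 2)
      ((Polynomial.evalRingHom (0 : B)).comp φ)))) : P G := by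
  let Φ : GL (Fin 2) A →* GL (Fin 2) B[X] := Matrix.GeneralLinearGroup.map (n := Fin 2) φ
  have hΦ : Function.Injective Φ := by
    intro M N hMN
    apply Units.ext
    ext i j
    exact hφ (congrFun (congrFun (congrArg (fun z : GL (Fin 2) B[X] =>
      (z : Matrix (Fin 2) (Fin 2) B[X])) hMN) i) j)
  refine hP.of_mulEquiv (G.equivMapOfInjective Φ hΦ).symm (ring_case hP B _ ?_)
  rw [Subgroup.map_map]
  exact h

/-- the coaction of a graded ring -/
noncomputable def coact {A σ : Type} [CommRing A] [SetLike σ A] [AddSubmonoidClass σ A]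
    (𝒜 : ℕ → σ) [GradedRing 𝒜] :
    A →+* A[X] :=
  (DirectSum.toSemiring (fun i => (Polynomial.monomial i).toAddMonoidHom.comp
    (AddSubmonoidClass.subtype (𝒜 i)))
    (by
      show Polynomial.monomial 0 (1 : A) = 1
      simp)
    (by
      intro i j a b
      show Polynomial.monomial (i + j) ((a : A) * (b : A)) =
        Polynomial.monomial i (a : A) * Polynomial.monomial j (b : A)
      rw [Polynomial.monomial_mul_monomial])).comp
    (DirectSum.decomposeRingEquiv 𝒜).toRingHom

theorem coact_apply {A σ : Type} [CommRing A] [SetLike σ A] [AddSubmonoidClass σ A]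
    (𝒜 : ℕ → σ) [GradedRing 𝒜] {i : ℕ} {a : A}
    (ha : a ∈ 𝒜 i) : coact 𝒜 a = Polynomial.monomial i a := by
  rw [coact, RingHom.comp_apply]
  have h1 : (DirectSum.decomposeRingEquiv 𝒜).toRingHom a = DirectSum.of (fun i => 𝒜 i) i ⟨a, ha⟩ :=
    DirectSum.decompose_of_mem 𝒜 ha
  rw [h1, DirectSum.toSemiring_of]
  rfl

theorem eval_one_coact {A σ : Type} [CommRing A] [SetLike σ A] [AddSubmonoidClass σ A]
    (𝒜 : ℕ → σ) [GradedRing 𝒜] (a : A) :
    Polynomial.eval 1 (coact 𝒜 a) = a := by
  induction a using DirectSum.Decomposition.inductionOn 𝒜 with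
  | zero => simp
  | homogeneous m => rw [coact_apply 𝒜 m.2]; simp
  | add m n hm hn => rw [map_add, Polynomial.eval_add, hm, hn]

theorem eval_zero_coact {A σ : Type} [CommRing A] [SetLike σ A] [AddSubmonoidClass σ A]
    (𝒜 : ℕ → σ) [GradedRing 𝒜] :
    (Polynomial.evalRingHom 0).comp (coact 𝒜) = GradedRing.projZeroRingHom 𝒜 := by
  apply RingHom.ext
  intro a
  show Polynomial.eval 0 (coact 𝒜 a) = _
  induction a using DirectSum.Decomposition.inductionOn 𝒜 with
  | zero => simp
  | @homogeneous i m =>
    rw [coact_apply 𝒜 m.2, GradedRing.projZeroRingHom_apply, Polynomial.eval_monomial]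
    by_cases hi : i = 0
    · subst hi
      rw [DirectSum.decompose_coe, DirectSum.of_eq_same]; simp
    · rw [DirectSum.decompose_coe, DirectSum.of_eq_of_ne _ _ _ (Ne.symm hi), zero_pow hi]; simp
  | add m n hm hn => rw [map_add, Polynomial.eval_add, hm, hn, map_add]

/-- graded rings -/
theorem graded_case {P : ∀ (G : Type) [Group G], Prop} (hP : Cls P) {A σ : Type} [CommRing A]
    [SetLike σ A] [AddSubmonoidClass σ A] (𝒜 : ℕ → σ) [GradedRing 𝒜] (G : Subgroup (GL (Fin 2) A))
    (h : P (G.map (Matrix.GeneralLinearGroup.map (n := Fin 2) (GradedRing.projZeroRingHom 𝒜)))) :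
    P G := by
  refine of_coaction hP (coact 𝒜) (Function.LeftInverse.injective (g := Polynomial.eval 1)
    (eval_one_coact 𝒜)) G ?_
  rw [eval_zero_coact]
  exact h

/-- polynomial rings in arbitrarily many variables -/
theorem mv_case {P : ∀ (G : Type) [Group G], Prop} (hP : Cls P) {A ι : Type} [CommRing A]
    (G : Subgroup (GL (Fin 2) (MvPolynomial ι A)))
    (h : P (G.map (Matrix.GeneralLinearGroup.map (n := Fin 2)
      (MvPolynomial.constantCoeff : MvPolynomial ι A →+* A)))) : P G := by
  let φ : MvPolynomial ι A →+* (MvPolynomial ι A)[X] :=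
    MvPolynomial.eval₂Hom (Polynomial.C.comp MvPolynomial.C)
      (fun i => Polynomial.C (MvPolynomial.X i) * Polynomial.X)
  have h1 : (Polynomial.evalRingHom 1).comp φ = RingHom.id _ := by
    apply MvPolynomial.ringHom_ext
    · intro r; simp [φ]
    · intro i; simp [φ]
  have h0 : (Polynomial.evalRingHom 0).comp φ = MvPolynomial.C.comp MvPolynomial.constantCoeff := by
    apply MvPolynomial.ringHom_ext
    · intro r; simp [φ]
    · intro i; simp [φ]
  refine of_coaction hP φ (Function.LeftInverse.injective (g := Polynomial.evalRingHom 1)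
    (fun x => DFunLike.congr_fun h1 x)) G ?_
  rw [h0, Matrix.GeneralLinearGroup.map_comp, ← Subgroup.map_map]
  refine hP.of_mulEquiv (Subgroup.equivMapOfInjective _ _ ?_) h
  intro M N hMN
  apply Units.ext
  ext1 i j
  exact MvPolynomial.C_injective ι A (congrFun (congrFun (congrArg (fun z : GL (Fin 2)
    (MvPolynomial ι A) => (z : Matrix (Fin 2) (Fin 2) (MvPolynomial ι A))) hMN) i) j)

end Pool.Agent.helper28.GF
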