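import Pool.Agent.helper28.GF.Orb

set_option autoImplicit false

/-!
# The semidirect product of a free product of two abelian groups with an infinite cyclic group
-/

namespace Pool.Agent.helper28.GF

open Pool.Agent.helper16.FJ Monoid

/-- products of an abelian subgroup and a cyclic group normalizing it -/
theorem solvable_sup {W : Type} [Group W] (D : Subgroup W) (t : W)
    (hD : ∀ x ∈ D, ∀ y ∈ D, x * y = y * x)
    (h1 : ∀ b ∈ D, t * b * t⁻¹ ∈ D) (h2 : ∀ b ∈ D, t⁻¹ * b * t ∈ D) :
    Group.IsSolvable (D ⊔ Subgroup.zpowers t : Subgroup W) := by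
  have hz : ∀ (k : ℤ), ∀ b ∈ D, t ^ k * b * (t ^ k)⁻¹ ∈ D := fun k b hb =>
    conj_zpow (B := fun _ : Unit => D) (σ := Equiv.refl _) (fun _ => h1) (fun _ => h2) k () b hb
  let V : Subgroup W :=
    { carrier := {x | ∃ b ∈ D, ∃ k : ℤ, x = b * t ^ k}
      one_mem' := ⟨1, D.one_mem, 0, by simp⟩
      mul_mem' := by
        rintro _ _ ⟨b, hb, k, rfl⟩ ⟨c, hc, l, rfl⟩
        refine ⟨b * (t ^ k * c * (t ^ k)⁻¹), D.mul_mem hb (hz k c hc), k + l, ?_⟩
        rw [zpow_add]; group
      inv_mem' := by
        rintro _ ⟨b, hb, k, rfl⟩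
        refine ⟨(t ^ (-k)) * b⁻¹ * (t ^ (-k))⁻¹, hz _ _ (D.inv_mem hb), -k, ?_⟩
        group }
  have hV : D ⊔ Subgroup.zpowers t ≤ V := by
    refine sup_le (fun b hb => ⟨b, hb, 0, by simp⟩) ?_
    rw [Subgroup.zpowers_le]
    exact ⟨1, D.one_mem, 1, by simp⟩
  have hVs : Group.IsSolvable V := by
    let D' : Subgroup V := D.subgroupOf V
    have hn : D'.Normal := by
      refine ⟨?_⟩
      rintro ⟨b, hb'⟩ hb ⟨_, c, hc, k, rfl⟩
      rw [Subgroup.mem_subgroupOf] at hb ⊢
      show c * t ^ k * b * (c * t ^ k)⁻¹ ∈ D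
      have : c * t ^ k * b * (c * t ^ k)⁻¹ = c * (t ^ k * b * (t ^ k)⁻¹) * c⁻¹ := by group
      rw [this]
      exact D.mul_mem (D.mul_mem hc (hz k b hb)) (D.inv_mem hc)
    have hDs : Group.IsSolvable D' := by
      refine Group.isSolvable_of_comm ?_
      rintro ⟨⟨x, _⟩, hx⟩ ⟨⟨y, _⟩, hy⟩
      apply Subtype.ext; apply Subtype.ext
      exact hD x hx y hy
    have hQ : Group.IsSolvable (V ⧸ D') := by
      refine Group.isSolvable_of_comm ?_
      intro x y
      obtain ⟨⟨_, c, hc, k, rfl⟩, rfl⟩ := QuotientGroup.mk_surjective x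
      obtain ⟨⟨_, d, hd, l, rfl⟩, rfl⟩ := QuotientGroup.mk_surjective y
      rw [← QuotientGroup.mk_mul, ← QuotientGroup.mk_mul, QuotientGroup.eq]
      rw [Subgroup.mem_subgroupOf]
      show (c * t ^ k * (d * t ^ l))⁻¹ * (d * t ^ l * (c * t ^ k)) ∈ D
      have h3 : (c * t ^ k * (d * t ^ l))⁻¹ * (d * t ^ l * (c * t ^ k)) =
          (t ^ (-(k + l)) * ((c * (t ^ k * d * (t ^ k)⁻¹))⁻¹ * (d * (t ^ l * c * (t ^ l)⁻¹))) *
            (t ^ (-(k + l)))⁻¹) := by
        have : t ^ (k + l) = t ^ k * t ^ l := zpow_add t k l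
        have h4 : t ^ k * t ^ l = t ^ l * t ^ k := by rw [← zpow_add, ← zpow_add, add_comm]
        rw [zpow_neg, inv_inv, this]
        simp only [mul_inv_rev, inv_inv, mul_assoc]
        rw [h4]
        simp only [inv_mul_cancel_left]
      rw [h3]
      exact hz _ _ (D.mul_mem (D.inv_mem (D.mul_mem hc (hz _ _ hd))) (D.mul_mem hd (hz _ _ hc)))
    rw [Group.isSolvable_iff_subgroup_quotient D']
    exact ⟨hDs, hQ⟩
  exact Group.isSolvable_of_isSolvable_injective (Subgroup.inclusion_injective hV)

/-- free products of ranges -/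
theorem lift_range_injective {W I : Type} [Group W] {D : I → Type} [∀ i, Group (D i)]
    (β : ∀ i, D i →* W) (h : Function.Injective (CoprodI.lift β)) :
    Function.Injective (CoprodI.lift (fun i => (β i).range.subtype)) := by
  have hβ : ∀ i, Function.Injective (β i) := by
    intro i x y hxy
    apply CoprodI.of_injective i
    apply h
    rw [CoprodI.lift_of, CoprodI.lift_of, hxy]
  let μ : CoprodI (fun i => (β i).range) →* CoprodI D := CoprodI.lift (fun i =>
    CoprodI.of.comp (MonoidHom.ofInjective (hβ i)).symm.toMonoidHom)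
  let ν : CoprodI D →* CoprodI (fun i => (β i).range) := CoprodI.lift (fun i =>
    (CoprodI.of (M := fun i => (β i).range)).comp (MonoidHom.ofInjective (hβ i)).toMonoidHom)
  have h1 : ν.comp μ = MonoidHom.id _ := by
    apply CoprodI.ext_hom
    intro i
    ext x
    simp [ν, μ]
  have h2 : (CoprodI.lift β).comp μ = CoprodI.lift (fun i => (β i).range.subtype) := by
    apply CoprodI.ext_hom
    intro i
    ext x
    simp only [MonoidHom.comp_apply, μ, CoprodI.lift_of]
    exact MonoidHom.apply_ofInjective_symm (hβ i) x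
  rw [← h2]
  exact h.comp (Function.LeftInverse.injective (g := ν) fun z => DFunLike.congr_fun h1 z)

section shift

variable (A B : Type) [Group A] [Group B]

theorem of_congr' {A B : Type} [Group B] {i j : A} (h : i = j) (b : B) :
    CoprodI.of (M := fun _ : A => B) (i := i) b = CoprodI.of (M := fun _ : A => B) (i := j) b := by
  subst h; rfl

/-- the shift on the free product of copies of `B` indexed by `A` -/
noncomputable def shiftEnd (a : A) : CoprodI (fun _ : A => B) →* CoprodI (fun _ : A => B) :=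
  CoprodI.lift (fun i => CoprodI.of (M := fun _ : A => B) (i := a * i))

theorem shiftEnd_of (a i : A) (b : B) :
    shiftEnd A B a (CoprodI.of (M := fun _ : A => B) (i := i) b) =
      CoprodI.of (M := fun _ : A => B) (i := a * i) b := CoprodI.lift_of _ _

theorem shiftEnd_mul (a a' : A) : shiftEnd A B (a * a') = (shiftEnd A B a).comp (shiftEnd A B a') := by
  apply CoprodI.ext_hom
  intro i
  ext b
  show shiftEnd A B (a * a') (CoprodI.of _) = shiftEnd A B a (shiftEnd A B a' (CoprodI.of _))
  rw [shiftEnd_of, shiftEnd_of, shiftEnd_of]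
  exact of_congr' (mul_assoc _ _ _) b

theorem shiftEnd_one : shiftEnd A B 1 = MonoidHom.id _ := by
  apply CoprodI.ext_hom
  intro i
  ext b
  show shiftEnd A B 1 (CoprodI.of _) = CoprodI.of _
  rw [shiftEnd_of]
  exact of_congr' (one_mul _) b

/-- the shift action -/
noncomputable def shiftHom : A →* MulAut (CoprodI (fun _ : A => B)) where
  toFun a := (shiftEnd A B a).toMulEquiv (shiftEnd A B a⁻¹)
    (by rw [← shiftEnd_mul, inv_mul_cancel, shiftEnd_one])
    (by rw [← shiftEnd_mul, mul_inv_cancel, shiftEnd_one])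
  map_one' := by
    ext x
    exact DFunLike.congr_fun (shiftEnd_one A B) x
  map_mul' a a' := by
    ext x
    exact DFunLike.congr_fun (shiftEnd_mul A B a a') x

/-- conjugates of the second factor -/
noncomputable def kap : CoprodI (fun _ : A => B) →* Coprod A B :=
  CoprodI.lift (fun a => (MulAut.conj (Coprod.inl a : Coprod A B)).toMonoidHom.comp Coprod.inr)

theorem kap_of (a : A) (b : B) : kap A B (CoprodI.of (M := fun _ : A => B) (i := a) b) =
    Coprod.inl a * Coprod.inr b * (Coprod.inl a)⁻¹ := CoprodI.lift_of _ _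

theorem kap_injective : Function.Injective (kap A B) := by
  let Λ : Coprod A B →* CoprodI (fun _ : A => B) ⋊[shiftHom A B] A :=
    Coprod.lift SemidirectProduct.inr
      (SemidirectProduct.inl.comp (CoprodI.of (M := fun _ : A => B) (i := 1)))
  have h : Λ.comp (kap A B) = SemidirectProduct.inl := by
    apply CoprodI.ext_hom
    intro a
    ext1 b
    show Λ (kap A B (CoprodI.of _)) = SemidirectProduct.inl (CoprodI.of _)
    rw [kap_of, map_mul, map_mul, map_inv]
    have h1 : Λ (Coprod.inl a) = SemidirectProduct.inr a := Coprod.lift_apply_inl _ _ _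
    have h2 : Λ (Coprod.inr b) = SemidirectProduct.inl (CoprodI.of (M := fun _ : A => B) (i := 1) b) :=
      Coprod.lift_apply_inr _ _ _
    rw [h1, h2, ← map_inv, ← SemidirectProduct.inl_aut]
    congr 1
    exact (shiftEnd_of A B a 1 b).trans (of_congr' (mul_one a) b)
  intro x y hxy
  apply SemidirectProduct.inl_injective (φ := shiftHom A B)
  rw [← h, MonoidHom.comp_apply, MonoidHom.comp_apply, hxy]

end shift

theorem zpow_intertwine {A C : Type} [Group A] [Group C] (f : A →* C) (α : MulAut A) (θ : MulAut C)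
    (h : ∀ a, θ (f a) = f (α a)) (k : ℤ) (a : A) : (θ ^ k) (f a) = f ((α ^ k) a) := by
  induction k generalizing a with
  | zero => simp
  | succ n ih =>
    rw [zpow_add_one, zpow_add_one, MulAut.mul_apply, MulAut.mul_apply, h, ih]
  | pred n ih =>
    have h' : θ⁻¹ (f a) = f (α⁻¹ a) := by
      have h1 := h (α⁻¹ a)
      rw [← MulAut.mul_apply, mul_inv_cancel, MulAut.one_apply] at h1
      rw [← h1, ← MulAut.mul_apply, inv_mul_cancel, MulAut.one_apply]
    rw [zpow_sub_one, zpow_sub_one, MulAut.mul_apply, MulAut.mul_apply, h', ih]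

theorem solvable_semi {A G : Type} [Group A] [Group G] (φ : G →* MulAut A)
    (hA : ∀ a a' : A, a * a' = a' * a) (hG : ∀ a a' : G, a * a' = a' * a) :
    Group.IsSolvable (A ⋊[φ] G) := by
  have h1 : Group.IsSolvable A := Group.isSolvable_of_comm hA
  have h2 : Group.IsSolvable G := Group.isSolvable_of_comm hG
  exact Group.isSolvable_of_ker_le_range (SemidirectProduct.inl : A →* A ⋊[φ] G)
    (SemidirectProduct.rightHom) (by rw [SemidirectProduct.range_inl_eq_ker_rightHom])

theorem Cls.kur {P : ∀ (G : Type) [Group G], Prop} (hP : Cls P) {A B : Type} [Group A] [Group B]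
    (hA : ∀ a a' : A, a * a' = a' * a) (hB : ∀ b b' : B, b * b' = b' * b)
    (α : MulAut A) (β : MulAut B)
    (hα : ∀ k : ℤ, k ≠ 0 → ∀ w : A, ∃! a : A, w * (α ^ k) a = a)
    (θ : MulAut (Coprod A B)) (hθl : ∀ a, θ (Coprod.inl a) = Coprod.inl (α a))
    (hθr : ∀ b, θ (Coprod.inr b) = Coprod.inr (β b)) :
    P (Coprod A B ⋊[zpowersHom _ θ] Multiplicative ℤ) := by
  have hPA : P A := hP.solvable _ (Group.isSolvable_of_comm hA)
  have hPB : P B := hP.solvable _ (Group.isSolvable_of_comm hB)
  have hPC : P (Coprod A B) := hP.coprod _ _ hPA hPB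
  -- powers of `θ`
  have hθl' : ∀ (k : ℤ) a, (θ ^ k) (Coprod.inl a) = Coprod.inl ((α ^ k) a) :=
    zpow_intertwine Coprod.inl α θ hθl
  have hθr' : ∀ (k : ℤ) b, (θ ^ k) (Coprod.inr b) = Coprod.inr ((β ^ k) b) :=
    zpow_intertwine Coprod.inr β θ hθr
  let p : Coprod A B →* A := Coprod.lift (MonoidHom.id A) 1
  have hpl : ∀ a, p (Coprod.inl a) = a := fun a => Coprod.lift_apply_inl _ _ _
  have hpr : ∀ b, p (Coprod.inr b) = 1 := fun b => Coprod.lift_apply_inr _ _ _
  have hp : ∀ c, α (p c) = p (θ c) := by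
    intro c
    have : α.toMonoidHom.comp p = p.comp θ.toMonoidHom := by
      apply Coprod.hom_ext
      · ext a
        show α (p (Coprod.inl a)) = p (θ (Coprod.inl a))
        rw [hθl, hpl, hpl]
      · ext b
        show α (p (Coprod.inr b)) = p (θ (Coprod.inr b))
        rw [hθr, hpr, hpr, map_one]
    exact DFunLike.congr_fun this c
  have hp' : ∀ (k : ℤ) c, (α ^ k) (p c) = p ((θ ^ k) c) := zpow_intertwine p θ α hp
  let ρ : Coprod A B ⋊[zpowersHom _ θ] Multiplicative ℤ →* A ⋊[zpowersHom _ α] Multiplicative ℤ :=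
    SemidirectProduct.map p (MonoidHom.id _) (by
      intro g
      apply MonoidHom.ext
      intro c
      exact (hp' (Multiplicative.toAdd g) c).symm)
  have hρl : ∀ c, ρ (SemidirectProduct.inl c) = SemidirectProduct.inl (p c) :=
    fun c => by
      apply SemidirectProduct.ext
      · rfl
      · rfl
  have hρr : ∀ g, ρ (SemidirectProduct.inr g) = SemidirectProduct.inr g :=
    fun g => by
      apply SemidirectProduct.ext
      · exact map_one p
      · rfl
  have hρright : ∀ s, (ρ s).right = s.right := fun s => rfl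
  have hρleft : ∀ s, (ρ s).left = p s.left := fun s => rfl
  refine hP.extension _ _ ρ (hP.solvable _ (solvable_semi _ hA (fun a b => mul_comm a b)))
    (fun C hC => hP.comap_vcyc ρ hC (fun q _ => ?_))
  obtain ⟨w, g⟩ := q
  by_cases hk : Multiplicative.toAdd g = 0
  · refine hP.mono (K := (SemidirectProduct.inl :
      Coprod A B →* Coprod A B ⋊[zpowersHom _ θ] Multiplicative ℤ).range) ?_
      (hP.of_mulEquiv (MonoidHom.ofInjective SemidirectProduct.inl_injective) hPC)
    rintro s ⟨j, hj⟩
    rw [SemidirectProduct.range_inl_eq_ker_rightHom, MonoidHom.mem_ker]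
    show s.right = 1
    rw [← hρright, ← hj]
    have h1 : g = 1 := hk
    have : (SemidirectProduct.rightHom (⟨w, g⟩ : A ⋊[zpowersHom _ α] Multiplicative ℤ)) = 1 := h1
    have h2 := map_zpow (SemidirectProduct.rightHom (φ := zpowersHom (MulAut A) α))
      (⟨w, g⟩ : A ⋊[zpowersHom _ α] Multiplicative ℤ) j
    rw [this, one_zpow] at h2
    exact h2
  · set k := Multiplicative.toAdd g with hkdef
    let βf : A → B →* Coprod A B ⋊[zpowersHom _ θ] Multiplicative ℤ := fun a =>
      SemidirectProduct.inl.comp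
        ((MulAut.conj (Coprod.inl a : Coprod A B)).toMonoidHom.comp Coprod.inr)
    have hβf : ∀ a b, βf a b = SemidirectProduct.inl
        (Coprod.inl a * Coprod.inr b * (Coprod.inl a)⁻¹) := fun a b => rfl
    let t : Coprod A B ⋊[zpowersHom _ θ] Multiplicative ℤ :=
      SemidirectProduct.inl (Coprod.inl w) * SemidirectProduct.inr g
    have hρt : ρ t = ⟨w, g⟩ := by
      simp only [t]
      rw [map_mul, hρl, hρr, hpl]
      exact SemidirectProduct.inl_left_mul_inr_right ⟨w, g⟩
    have htx : ∀ x : Coprod A B, t * SemidirectProduct.inl x * t⁻¹ =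
        SemidirectProduct.inl (Coprod.inl w * (θ ^ k) x * (Coprod.inl w)⁻¹) := by
      intro x
      have h1 : (SemidirectProduct.inl ((zpowersHom (MulAut (Coprod A B)) θ) g x) :
          Coprod A B ⋊[zpowersHom _ θ] Multiplicative ℤ) = _ := SemidirectProduct.inl_aut g x
      have h2 : (zpowersHom (MulAut (Coprod A B)) θ) g x = (θ ^ k) x := rfl
      rw [h2] at h1
      simp only [t, map_mul, map_inv, h1]
      group
    have hconj : ∀ a b, t * βf a b * t⁻¹ = βf (w * (α ^ k) a) ((β ^ k) b) := by
      intro a b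
      rw [hβf, hβf, htx]
      congr 1
      rw [map_mul, map_mul, map_inv, hθl', hθr', map_mul]
      group
    let σ : Equiv.Perm A := (α ^ k).toEquiv.trans (Equiv.mulLeft w)
    have hσ : ∀ a, σ a = w * (α ^ k) a := fun a => rfl
    -- normalization by `A`
    have hnorm : ∀ a', ∀ x ∈ (⨆ a, (βf a).range),
        SemidirectProduct.inl (Coprod.inl a') * x * (SemidirectProduct.inl (Coprod.inl a'))⁻¹ ∈
          (⨆ a, (βf a).range) := by
      intro a' x hx
      have h1 : (⨆ a, (βf a).range).map (MulAut.conj (SemidirectProduct.inl (Coprod.inl a') :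
          Coprod A B ⋊[zpowersHom _ θ] Multiplicative ℤ)).toMonoidHom ≤ ⨆ a, (βf a).range := by
        rw [Subgroup.map_iSup]
        refine iSup_le fun a => ?_
        rintro _ ⟨_, ⟨b, rfl⟩, rfl⟩
        refine (le_iSup (fun a => (βf a).range) (a' * a)) ⟨b, ?_⟩
        show βf (a' * a) b = SemidirectProduct.inl (Coprod.inl a') * βf a b *
          (SemidirectProduct.inl (Coprod.inl a'))⁻¹
        rw [hβf, hβf]
        simp only [map_mul, map_inv, mul_inv_rev, mul_assoc]
      exact h1 ⟨x, hx, rfl⟩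
    have key : ∀ c : Coprod A B, (SemidirectProduct.inl (c * (Coprod.inl (p c))⁻¹) :
        Coprod A B ⋊[zpowersHom _ θ] Multiplicative ℤ) ∈ ⨆ a, (βf a).range := by
      intro c
      induction c using Coprod.induction_on with
      | inl a => rw [hpl, mul_inv_cancel, map_one]; exact one_mem _
      | inr b =>
        rw [hpr, map_one, inv_one, mul_one]
        refine (le_iSup (fun a => (βf a).range) 1) ⟨b, ?_⟩
        rw [hβf, map_one, one_mul, inv_one, mul_one]
      | mul x y hx hy =>
        have h1 := mul_mem hx (hnorm (p x) _ hy)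
        convert h1 using 1
        simp only [map_mul, map_inv, mul_inv_rev, mul_assoc, inv_mul_cancel_left]
    have hcomap : (Subgroup.zpowers (⟨w, g⟩ : A ⋊[zpowersHom _ α] Multiplicative ℤ)).comap ρ ≤
        (⨆ a, (βf a).range) ⊔ Subgroup.zpowers t := by
      rintro s ⟨j, hj⟩
      have hj : (⟨w, g⟩ : A ⋊[zpowersHom _ α] Multiplicative ℤ) ^ j = ρ s := hj
      have h1 : ρ (s * t ^ (-j)) = 1 := by
        rw [map_mul, map_zpow, hρt, ← hj, ← zpow_add, add_neg_cancel, zpow_zero]
      have h2 : (s * t ^ (-j)) = SemidirectProduct.inl (s * t ^ (-j)).left := by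
        apply SemidirectProduct.ext
        · rfl
        · show _ = 1
          rw [← hρright, h1]; rfl
      have h3 : p (s * t ^ (-j)).left = 1 := by rw [← hρleft, h1]; rfl
      have h4 := key (s * t ^ (-j)).left
      rw [h3, map_one, inv_one, mul_one, ← h2] at h4
      have h5 : s = (s * t ^ (-j)) * t ^ j := by group
      rw [h5]
      exact mul_mem ((le_sup_left : _ ≤ (⨆ a, (βf a).range) ⊔ Subgroup.zpowers t) h4)
        ((le_sup_right : _ ≤ (⨆ a, (βf a).range) ⊔ Subgroup.zpowers t) ⟨j, rfl⟩)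
    refine hP.mono hcomap ?_
    -- the fixed point
    obtain ⟨a0, ha0, hu0⟩ := hα k hk w
    have haff : ∀ j : ℤ, ∃ v : A, ∀ a, (σ ^ j) a = v * (α ^ (k * j)) a := by
      intro j
      induction j with
      | zero => exact ⟨1, fun a => by simp⟩
      | succ n ih =>
        obtain ⟨v, hv⟩ := ih
        refine ⟨v * (α ^ (k * n)) w, fun a => ?_⟩
        rw [zpow_add_one, Equiv.Perm.mul_apply, hv, hσ, map_mul, ← MulAut.mul_apply, ← zpow_add,
          mul_assoc, mul_add, mul_one]
      | pred n ih =>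
        obtain ⟨v, hv⟩ := ih
        refine ⟨v * (α ^ (k * (-(n : ℤ)))) ((α ^ (-k)) w⁻¹), fun a => ?_⟩
        have h1 : σ⁻¹ a = (α ^ (-k)) (w⁻¹ * a) := by
          rw [Equiv.Perm.inv_eq_iff_eq, hσ, ← MulAut.mul_apply, ← zpow_add, add_neg_cancel,
            zpow_zero, MulAut.one_apply, mul_inv_cancel_left]
        rw [zpow_sub_one, Equiv.Perm.mul_apply, hv, h1, map_mul, map_mul, mul_assoc,
          ← MulAut.mul_apply _ _ _ a, ← zpow_add]
        congr 4
        ring
    refine hP.orb (fun a => (βf a).range) σ t ?_ ?_ ?_ ?_ ?_ ?_ ?_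
    · rintro a _ ⟨b, rfl⟩
      exact ⟨(β ^ k) b, (hconj a b).symm⟩
    · rintro a _ ⟨b, rfl⟩
      refine ⟨(β ^ k)⁻¹ b, ?_⟩
      have h1 := hconj (σ.symm a) ((β ^ k)⁻¹ b)
      rw [← hσ, Equiv.apply_symm_apply, ← MulAut.mul_apply, mul_inv_cancel, MulAut.one_apply] at h1
      rw [← h1]; group
    · apply lift_range_injective
      have h1 : CoprodI.lift βf = (SemidirectProduct.inl :
          Coprod A B →* Coprod A B ⋊[zpowersHom _ θ] Multiplicative ℤ).comp (kap A B) := by
        apply CoprodI.ext_hom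
        intro a
        apply MonoidHom.ext
        intro b
        show CoprodI.lift βf (CoprodI.of b) = SemidirectProduct.inl (kap A B (CoprodI.of b))
        rw [CoprodI.lift_of, kap_of, hβf]
      rw [h1]
      exact SemidirectProduct.inl_injective.comp (kap_injective A B)
    · intro j hj
      have h1 : (⨆ a, (βf a).range) ≤ (SemidirectProduct.rightHom :
          Coprod A B ⋊[zpowersHom _ θ] Multiplicative ℤ →* _).ker := by
        refine iSup_le fun a => ?_
        rintro _ ⟨b, rfl⟩
        rw [MonoidHom.mem_ker, hβf, SemidirectProduct.rightHom_inl]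
      have h2 := h1 hj
      rw [MonoidHom.mem_ker, map_zpow] at h2
      have h3 : SemidirectProduct.rightHom t = g := by simp [t]
      rw [h3] at h2
      have h4 : j * k = 0 := h2
      exact (mul_eq_zero.1 h4).resolve_right hk
    · intro a j hj haj
      obtain ⟨v, hv⟩ := haff j
      have hσ0 : σ a0 = a0 := ha0
      have h0 : (σ ^ j) a0 = a0 := Equiv.Perm.zpow_apply_eq_self_of_apply_eq_self hσ0 j
      obtain ⟨a1, ha1, hu1⟩ := hα (k * j) (mul_ne_zero hk hj) v
      have h2 : a0 = a1 := hu1 a0 (by show v * (α ^ (k * j)) a0 = a0; rw [← hv]; exact h0)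
      have h3 : a = a1 := hu1 a (by show v * (α ^ (k * j)) a = a; rw [← hv]; exact haj)
      rw [h3, ← h2]; exact hσ0
    · intro a
      refine hP.solvable _ (Group.isSolvable_of_comm ?_)
      rintro ⟨_, b, rfl⟩ ⟨_, b', rfl⟩
      apply Subtype.ext
      show βf a b * βf a b' = βf a b' * βf a b
      rw [← map_mul, hB, map_mul]
    · refine hP.mono (K := (βf a0).range ⊔ Subgroup.zpowers t) ?_ (hP.solvable _ ?_)
      · refine sup_le (iSup_le ?_) le_sup_right
        rintro ⟨a, ha⟩
        have : a = a0 := hu0 a ha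
        show (βf a).range ≤ _
        rw [this]; exact le_sup_left
      · apply solvable_sup
        · rintro _ ⟨b, rfl⟩ _ ⟨b', rfl⟩
          rw [← map_mul, hB, map_mul]
        · rintro _ ⟨b, rfl⟩
          refine ⟨(β ^ k) b, ?_⟩
          rw [hconj]
          congr 1
          rw [ha0]
        · rintro _ ⟨b, rfl⟩
          refine ⟨(β ^ k)⁻¹ b, ?_⟩
          have h1 := hconj a0 ((β ^ k)⁻¹ b)
          rw [ha0, ← MulAut.mul_apply, mul_inv_cancel, MulAut.one_apply] at h1
          rw [← h1]; group

end Pool.Agent.helper28.GF
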