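import Pool.Agent.helper28.GF.Kur
import Mathlib.Topology.Compactification.OnePoint.ProjectiveLine
import Mathlib.LinearAlgebra.Matrix.GeneralLinearGroup.FinTwo

set_option autoImplicit false

/-!
# The congruence subgroup generated by the unipotent groups of the points of the projective line
-/

namespace Pool.Agent.helper28.GF

open Pool.Agent.helper16.FJ Monoid Matrix
open scoped OnePoint

section pts

variable {F : Type} [Field F]

/-- vector of a point of the projective line -/
def vc (c : OnePoint F) : Fin 2 → F := c.elim ![1, 0] (fun a => ![a, 1])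

/-- covector annihilating the vector of a point of the projective line -/
def cv (c : OnePoint F) : Fin 2 → F := c.elim ![0, 1] (fun a => ![1, -a])

/-- nilpotent matrix with image and kernel the line of `c` -/
def nl (c : OnePoint F) : Matrix (Fin 2) (Fin 2) F := Matrix.of fun i j => vc c i * cv c j

theorem vc_infty : vc (∞ : OnePoint F) = ![1, 0] := rfl
theorem cv_infty : cv (∞ : OnePoint F) = ![0, 1] := rfl
theorem vc_coe (a : F) : vc (a : OnePoint F) = ![a, 1] := rfl
theorem cv_coe (a : F) : cv (a : OnePoint F) = ![1, -a] := rfl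

theorem cv_vc_self (c : OnePoint F) : cv c 0 * vc c 0 + cv c 1 * vc c 1 = 0 := by
  induction c using OnePoint.rec with
  | infty => simp [vc_infty, cv_infty]
  | coe a => simp [vc_coe, cv_coe]

theorem cv_vc_ne {c c' : OnePoint F} (h : c ≠ c') : cv c 0 * vc c' 0 + cv c 1 * vc c' 1 ≠ 0 := by
  induction c using OnePoint.rec with
  | infty =>
    induction c' using OnePoint.rec with
    | infty => exact absurd rfl h
    | coe a => simp [vc_coe, cv_infty]
  | coe a =>
    induction c' using OnePoint.rec with
    | infty => simp [vc_infty, cv_coe]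
    | coe b =>
      have hab : a ≠ b := fun e => h (by rw [e])
      simp only [vc_coe, cv_coe]
      intro h0
      apply hab
      simp at h0
      linear_combination -h0

theorem nl_mul_self (c : OnePoint F) : nl c * nl c = 0 := by
  ext i j
  have h := cv_vc_self c
  simp only [nl, Matrix.mul_apply, Fin.sum_univ_two, Matrix.of_apply, Matrix.zero_apply]
  linear_combination vc c i * cv c j * h

theorem vc_ne (c : OnePoint F) : ∃ i, vc c i ≠ 0 := by
  induction c using OnePoint.rec with
  | infty => exact ⟨0, by simp [vc_infty]⟩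
  | coe a => exact ⟨1, by simp [vc_coe]⟩

theorem cv_ne (c : OnePoint F) : ∃ i, cv c i ≠ 0 := by
  induction c using OnePoint.rec with
  | infty => exact ⟨1, by simp [cv_infty]⟩
  | coe a => exact ⟨0, by simp [cv_coe]⟩

variable [DecidableEq F]

theorem vc_smul (h : GL (Fin 2) F) (c : OnePoint F) :
    ∃ m : F, m ≠ 0 ∧ ∀ i, h i 0 * vc c 0 + h i 1 * vc c 1 = m * vc (h • c) i := by
  have hdet := h.det_ne_zero
  rw [Matrix.det_fin_two] at hdet
  induction c using OnePoint.rec with
  | infty =>
    rw [OnePoint.smul_infty_eq_ite]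
    split_ifs with h0
    · refine ⟨h 0 0, ?_, ?_⟩
      · intro h1; apply hdet; rw [h0, h1]; ring
      · intro i; fin_cases i <;> simp [vc_infty, h0]
    · refine ⟨h 1 0, h0, ?_⟩
      intro i; fin_cases i
      · simp [vc_infty, vc_coe]; field_simp
      · simp [vc_infty, vc_coe]
  | coe a =>
    rw [OnePoint.smul_some_eq_ite]
    split_ifs with h0
    · refine ⟨h 0 0 * a + h 0 1, ?_, ?_⟩
      · intro h1; apply hdet
        by_cases ha : a = 0
        · subst ha
          simp at h0 h1
          rw [h0, h1]; ring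
        · have : a * (h 0 0 * h 1 1 - h 0 1 * h 1 0) = 0 := by
            linear_combination h 1 1 * h1 - h 0 1 * h0
          exact (mul_eq_zero.1 this).resolve_left ha
      · intro i; fin_cases i
        · simp [vc_infty, vc_coe]
        · simp [vc_infty, vc_coe, h0]
    · refine ⟨h 1 0 * a + h 1 1, h0, ?_⟩
      have h0' : a * h 1 0 + h 1 1 ≠ 0 := by rwa [mul_comm a]
      intro i; fin_cases i
      · simp [vc_coe]; field_simp
      · simp [vc_coe]

theorem nl_conj (h : GL (Fin 2) F) (c : OnePoint F) :
    ∃ l : F, l ≠ 0 ∧ (h : Matrix (Fin 2) (Fin 2) F) * nl c = (l • nl (h • c)) * h := by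
  obtain ⟨m, hm, hv⟩ := vc_smul h c
  -- `cv (h • c) * h` kills `vc c`, hence is a multiple of `cv c`
  have hk : (cv (h • c) 0 * h 0 0 + cv (h • c) 1 * h 1 0) * vc c 0 +
      (cv (h • c) 0 * h 0 1 + cv (h • c) 1 * h 1 1) * vc c 1 = 0 := by
    have h1 := cv_vc_self (h • c)
    have h2 : m * (cv (h • c) 0 * vc (h • c) 0 + cv (h • c) 1 * vc (h • c) 1) = 0 := by
      rw [h1, mul_zero]
    linear_combination h2 + cv (h • c) 0 * hv 0 + cv (h • c) 1 * hv 1
  have hmul : ∃ n : F, ∀ j, cv (h • c) 0 * h 0 j + cv (h • c) 1 * h 1 j = n * cv c j := by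
    clear hv hm
    revert hk
    generalize h • c = c'
    intro hk
    induction c using OnePoint.rec with
    | infty =>
      refine ⟨cv c' 0 * h 0 1 + cv c' 1 * h 1 1, ?_⟩
      simp [vc_infty] at hk
      intro j; fin_cases j
      · simp [cv_infty, hk]
      · simp [cv_infty]
    | coe a =>
      refine ⟨cv c' 0 * h 0 0 + cv c' 1 * h 1 0, ?_⟩
      simp [vc_coe] at hk
      intro j; fin_cases j
      · simp [cv_coe]
      · simp [cv_coe]; linear_combination hk
  obtain ⟨n, hn⟩ := hmul
  have hn0 : n ≠ 0 := by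
    rintro rfl
    have hdet := h.det_ne_zero
    rw [Matrix.det_fin_two] at hdet
    obtain ⟨i, hi⟩ := cv_ne (h • c)
    apply hi
    have e0 := hn 0
    have e1 := hn 1
    rw [zero_mul] at e0 e1
    have f0 : cv (h • c) 0 = 0 := by
      have : cv (h • c) 0 * (h 0 0 * h 1 1 - h 0 1 * h 1 0) = 0 := by
        linear_combination h 1 1 * e0 - h 1 0 * e1
      exact (mul_eq_zero.1 this).resolve_right hdet
    have f1 : cv (h • c) 1 = 0 := by
      have : cv (h • c) 1 * (h 0 0 * h 1 1 - h 0 1 * h 1 0) = 0 := by
        linear_combination h 0 0 * e1 - h 0 1 * e0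
      exact (mul_eq_zero.1 this).resolve_right hdet
    fin_cases i
    · exact f0
    · exact f1
  refine ⟨m / n, div_ne_zero hm hn0, ?_⟩
  ext i j
  have hv' := hv i
  have hn' := hn j
  simp only [nl, Matrix.mul_apply, Fin.sum_univ_two, Matrix.of_apply, Matrix.smul_apply, smul_eq_mul]
  have h3 : (h i 0 * (vc c 0 * cv c j) + h i 1 * (vc c 1 * cv c j)) =
      (m * vc (h • c) i) * cv c j := by linear_combination cv c j * hv'
  rw [h3]
  have h4 : m / n * (vc (h • c) i * cv (h • c) 0) * h 0 j +
      m / n * (vc (h • c) i * cv (h • c) 1) * h 1 j = m / n * vc (h • c) i * (n * cv c j) := by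
    linear_combination m / n * vc (h • c) i * hn'
  rw [h4]
  field_simp

/-- scalar matrices -/
def Scal (h : GL (Fin 2) F) : Prop := h 1 0 = 0 ∧ h 0 1 = 0 ∧ h 0 0 = h 1 1

theorem fix_coe_iff (h : GL (Fin 2) F) (a : F) : h • (a : OnePoint F) = a ↔
    h 1 0 * a ^ 2 + (h 1 1 - h 0 0) * a - h 0 1 = 0 := by
  rw [← Matrix.GeneralLinearGroup.fixpointPolynomial_aeval_eq_zero_iff]
  simp [Matrix.GeneralLinearGroup.fixpointPolynomial]

theorem scal_of_fix (h : GL (Fin 2) F) {c1 c2 c3 : OnePoint F} (h1 : h • c1 = c1)
    (h2 : h • c2 = c2) (h3 : h • c3 = c3) (h12 : c1 ≠ c2) (h13 : c1 ≠ c3) (h23 : c2 ≠ c3) :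
    Scal h := by
  have hinf : ∀ a b : F, a ≠ b → h • (∞ : OnePoint F) = ∞ → h • (a : OnePoint F) = a →
      h • (b : OnePoint F) = b → Scal h := by
    intro a b hab hi ha hb
    rw [OnePoint.smul_infty_eq_self_iff] at hi
    rw [fix_coe_iff] at ha hb
    rw [hi] at ha hb
    have e : (h 1 1 - h 0 0) * (a - b) = 0 := by linear_combination ha - hb
    have e1 : h 1 1 - h 0 0 = 0 := (mul_eq_zero.1 e).resolve_right (sub_ne_zero.2 hab)
    refine ⟨hi, ?_, ?_⟩
    · rw [e1] at ha; linear_combination -ha
    · linear_combination -e1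
  have hfin : ∀ a b c : F, a ≠ b → a ≠ c → b ≠ c → h • (a : OnePoint F) = a →
      h • (b : OnePoint F) = b → h • (c : OnePoint F) = c → Scal h := by
    intro a b c hab hac hbc ha hb hc
    rw [fix_coe_iff] at ha hb hc
    have e1 : h 1 0 * (a + b) + (h 1 1 - h 0 0) = 0 := by
      have e : (h 1 0 * (a + b) + (h 1 1 - h 0 0)) * (a - b) = 0 := by linear_combination ha - hb
      exact (mul_eq_zero.1 e).resolve_right (sub_ne_zero.2 hab)
    have e2 : h 1 0 * (a + c) + (h 1 1 - h 0 0) = 0 := by
      have e : (h 1 0 * (a + c) + (h 1 1 - h 0 0)) * (a - c) = 0 := by linear_combination ha - hc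
      exact (mul_eq_zero.1 e).resolve_right (sub_ne_zero.2 hac)
    have e3 : h 1 0 = 0 := by
      have e : h 1 0 * (b - c) = 0 := by linear_combination e1 - e2
      exact (mul_eq_zero.1 e).resolve_right (sub_ne_zero.2 hbc)
    rw [e3] at e1 ha
    have e4 : h 1 1 - h 0 0 = 0 := by linear_combination e1
    refine ⟨e3, ?_, ?_⟩
    · rw [e4] at ha; linear_combination -ha
    · linear_combination -e4
  induction c1 using OnePoint.rec with
  | infty =>
    induction c2 using OnePoint.rec with
    | infty => exact absurd rfl h12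
    | coe a =>
      induction c3 using OnePoint.rec with
      | infty => exact absurd rfl h13
      | coe b => exact hinf a b (fun e => h23 (by rw [e])) h1 h2 h3
  | coe a =>
    induction c2 using OnePoint.rec with
    | infty =>
      induction c3 using OnePoint.rec with
      | infty => exact absurd rfl h23
      | coe b => exact hinf a b (fun e => h13 (by rw [e])) h2 h1 h3
    | coe b =>
      induction c3 using OnePoint.rec with
      | infty => exact hinf a b (fun e => h12 (by rw [e])) h3 h1 h2
      | coe c =>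
        exact hfin a b c (fun e => h12 (by rw [e])) (fun e => h13 (by rw [e]))
          (fun e => h23 (by rw [e])) h1 h2 h3

theorem scal_of_comm (h : GL (Fin 2) F) {c1 c2 : OnePoint F} (h1 : h • c1 = c1)
    (h2 : h • c2 = c2) (h12 : c1 ≠ c2) (hc : (h : Matrix (Fin 2) (Fin 2) F) * nl c1 = nl c1 * h) :
    Scal h := by
  have e := fun i j => congrFun (congrFun hc i) j
  simp only [nl, Matrix.mul_apply, Fin.sum_univ_two, Matrix.of_apply] at e
  have e00 := e 0 0
  have e01 := e 0 1
  have e10 := e 1 0
  have e11 := e 1 1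
  induction c1 using OnePoint.rec with
  | infty =>
    induction c2 using OnePoint.rec with
    | infty => exact absurd rfl h12
    | coe a =>
      rw [fix_coe_iff] at h2
      simp [vc_infty, cv_infty] at e00 e01 e10 e11
      refine ⟨by assumption, ?_, by assumption⟩
      rw [e11, e01] at h2
      linear_combination -h2
  | coe a =>
    rw [fix_coe_iff] at h1
    simp [vc_coe, cv_coe] at e00 e01 e10 e11
    induction c2 using OnePoint.rec with
    | infty =>
      rw [OnePoint.smul_infty_eq_self_iff] at h2
      rw [h2] at e10 h1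
      have e5 : h 0 0 = h 1 1 := by linear_combination -e10
      refine ⟨h2, ?_, e5⟩
      rw [e5] at h1
      linear_combination -h1
    | coe b =>
      rw [fix_coe_iff] at h2
      have hab : a ≠ b := fun e => h12 (by rw [e])
      have e1 : h 1 0 * (a + b) + (h 1 1 - h 0 0) = 0 := by
        have e : (h 1 0 * (a + b) + (h 1 1 - h 0 0)) * (a - b) = 0 := by linear_combination h1 - h2
        exact (mul_eq_zero.1 e).resolve_right (sub_ne_zero.2 hab)
      have e3 : h 1 0 = 0 := by
        have e : h 1 0 * (a - b) = 0 := by linear_combination e10 - e1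
        exact (mul_eq_zero.1 e).resolve_right (sub_ne_zero.2 hab)
      rw [e3] at e10 h1
      have e5 : h 0 0 = h 1 1 := by linear_combination -e10
      refine ⟨e3, ?_, e5⟩
      rw [e5] at h1
      linear_combination -h1

end pts

end Pool.Agent.helper28.GF
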