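import Pool.Agent.helper28.GF.Base

set_option autoImplicit false

/-!
# A free product of subgroups permuted by one element
-/

namespace Pool.Agent.helper28.GF

open Pool.Agent.helper16.FJ Monoid

/-- equivariance for the powers follows from equivariance -/
theorem compat_zpow {C X : Type} [Group C] [Group X] (θ : MulAut C) (f : C →* X) (τ : X)
    (h : ∀ c, f (θ c) = τ * f c * τ⁻¹) (k : ℤ) (c : C) :
    f ((θ ^ k) c) = τ ^ k * f c * (τ ^ k)⁻¹ := by
  induction k generalizing c with
  | zero => simp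
  | succ n ih =>
    have : (θ ^ ((n : ℤ) + 1)) c = (θ ^ (n : ℤ)) (θ c) := by
      rw [zpow_add_one]; rfl
    rw [this, ih, h, zpow_add_one]
    group
  | pred n ih =>
    have h' : f (θ⁻¹ c) = τ⁻¹ * f c * τ := by
      have := h (θ⁻¹ c)
      have h2 : θ (θ⁻¹ c) = c := by
        rw [← MulAut.mul_apply, mul_inv_cancel, MulAut.one_apply]
      rw [h2] at this
      rw [this]; group
    have : (θ ^ (-(n : ℤ) - 1)) c = (θ ^ (-(n : ℤ))) (θ⁻¹ c) := by
      rw [zpow_sub_one]; rfl
    rw [this, ih, h', zpow_sub_one]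
    group

theorem of_congr {W I : Type} [Group W] {B : I → Subgroup W} {i j : I} (h : i = j)
    {x : B i} {y : B j} (hxy : (x : W) = (y : W)) :
    CoprodI.of (M := fun i => B i) x = CoprodI.of (M := fun i => B i) y := by
  subst h
  congr 1
  exact Subtype.ext hxy

section

variable {W I : Type} [Group W] {B : I → Subgroup W} {σ : Equiv.Perm I} {t : W}

theorem conj_zpow (hconj : ∀ i, ∀ b ∈ B i, t * b * t⁻¹ ∈ B (σ i))
    (hconj' : ∀ i, ∀ b ∈ B i, t⁻¹ * b * t ∈ B (σ.symm i)) (k : ℤ) (i : I) (b : W) (hb : b ∈ B i) :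
    t ^ k * b * (t ^ k)⁻¹ ∈ B ((σ ^ k) i) := by
  induction k generalizing i b with
  | zero => simpa using hb
  | succ n ih =>
    have h1 := ih (σ i) _ (hconj i b hb)
    have h2 : (σ ^ ((n : ℤ) + 1)) i = (σ ^ (n : ℤ)) (σ i) := by rw [zpow_add_one]; rfl
    rw [h2]
    convert h1 using 1
    rw [zpow_add_one]; group
  | pred n ih =>
    have h1 := ih (σ.symm i) _ (hconj' i b hb)
    have h2 : (σ ^ (-(n : ℤ) - 1)) i = (σ ^ (-(n : ℤ))) (σ.symm i) := by rw [zpow_sub_one]; rfl
    rw [h2]
    convert h1 using 1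
    rw [zpow_sub_one]; group

/-- the automorphism of the free product -/
noncomputable def theta (hconj : ∀ i, ∀ b ∈ B i, t * b * t⁻¹ ∈ B (σ i))
    (hconj' : ∀ i, ∀ b ∈ B i, t⁻¹ * b * t ∈ B (σ.symm i)) :
    MulAut (CoprodI (fun i => B i)) :=
  let f : CoprodI (fun i => B i) →* CoprodI (fun i => B i) := CoprodI.lift (fun i =>
    (CoprodI.of (M := fun i => B i) (i := σ i)).comp
      { toFun := fun b => ⟨t * b * t⁻¹, hconj i b b.2⟩
        map_one' := by ext; simp
        map_mul' := fun x y => by ext; simp [mul_assoc] })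
  let g : CoprodI (fun i => B i) →* CoprodI (fun i => B i) := CoprodI.lift (fun i =>
    (CoprodI.of (M := fun i => B i) (i := σ.symm i)).comp
      { toFun := fun b => ⟨t⁻¹ * b * t, hconj' i b b.2⟩
        map_one' := by ext; simp
        map_mul' := fun x y => by ext; simp [mul_assoc] })
  have hgf : g.comp f = MonoidHom.id _ := by
    apply CoprodI.ext_hom
    intro i
    ext b
    simp only [MonoidHom.comp_apply, f, g, CoprodI.lift_of, MonoidHom.id_apply]
    refine of_congr (σ.symm_apply_apply i) ?_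
    simp [mul_assoc]
  have hfg : f.comp g = MonoidHom.id _ := by
    apply CoprodI.ext_hom
    intro i
    ext b
    simp only [MonoidHom.comp_apply, f, g, CoprodI.lift_of, MonoidHom.id_apply]
    refine of_congr (σ.apply_symm_apply i) ?_
    simp [mul_assoc]
  f.toMulEquiv g hgf hfg

theorem theta_of (hconj : ∀ i, ∀ b ∈ B i, t * b * t⁻¹ ∈ B (σ i))
    (hconj' : ∀ i, ∀ b ∈ B i, t⁻¹ * b * t ∈ B (σ.symm i)) (i : I) (b : B i) :
    theta hconj hconj' (CoprodI.of (M := fun i => B i) b) =
      CoprodI.of (M := fun i => B i) (i := σ i) ⟨t * b * t⁻¹, hconj i b b.2⟩ := by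
  simp [theta]

end

/-- Let the subgroups `B i` of `W` generate their free product `N`, let `t` permute them by
conjugation, with `⟨t⟩ ∩ N = 1`, such that the orbits outside the set of fixed points are infinite.
Then `N ⟨t⟩` is in the class if the `B i` and the group generated by `t` and the fixed `B i` are. -/
theorem Cls.orb {P : ∀ (G : Type) [Group G], Prop} (hP : Cls P) {W I : Type} [Group W]
    (B : I → Subgroup W) (σ : Equiv.Perm I) (t : W)
    (hconj : ∀ i, ∀ b ∈ B i, t * b * t⁻¹ ∈ B (σ i))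
    (hconj' : ∀ i, ∀ b ∈ B i, t⁻¹ * b * t ∈ B (σ.symm i))
    (hfree : Function.Injective (CoprodI.lift (fun i => (B i).subtype)))
    (hind : ∀ k : ℤ, t ^ k ∈ (⨆ i, B i) → k = 0)
    (horb : ∀ i, ∀ k : ℤ, k ≠ 0 → (σ ^ k) i = i → σ i = i)
    (hB : ∀ i, P (B i))
    (hfix : P ((⨆ i : {i // σ i = i}, B i) ⊔ Subgroup.zpowers t : Subgroup W)) :
    P ((⨆ i, B i) ⊔ Subgroup.zpowers t : Subgroup W) := by
  classical
  set M0 : Subgroup W := (⨆ i : {i // σ i = i}, B i) ⊔ Subgroup.zpowers t with hM0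
  let C := CoprodI (fun i => B i)
  let L : C →* W := CoprodI.lift (fun i => (B i).subtype)
  let θ : MulAut C := theta hconj hconj'
  let T := Coprod M0 C
  have htM : t ∈ M0 := (le_sup_right : _ ≤ M0) (Subgroup.mem_zpowers t)
  let τ : T := Coprod.inl ⟨t, htM⟩
  -- representatives of the orbits
  let s : Setoid I :=
    { r := fun i j => ∃ k : ℤ, (σ ^ k) i = j
      iseqv := ⟨fun i => ⟨0, by simp⟩,
        fun {i j} ⟨k, hk⟩ => ⟨-k, by rw [← hk, ← Equiv.Perm.mul_apply, ← zpow_add]; simp⟩,
        fun {i j l} ⟨k, hk⟩ ⟨m, hm⟩ => ⟨m + k, by rw [zpow_add, Equiv.Perm.mul_apply, hk, hm]⟩⟩ }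
  let rep : I → I := fun i => (Quotient.mk s i).out
  have hrep : ∀ i, ∃ k : ℤ, (σ ^ k) (rep i) = i := fun i => @Quotient.mk_out I s i
  choose ex hex using hrep
  have hrepσ : ∀ i, rep (σ i) = rep i := fun i => by
    have : Quotient.mk s (σ i) = Quotient.mk s i := Quotient.sound ⟨-1, by simp⟩
    simp only [rep, this]
  have hexσ : ∀ i, σ i ≠ i → ex (σ i) = ex i + 1 := by
    intro i hi
    by_contra hne
    have h1 : (σ ^ ex (σ i)) (rep i) = (σ ^ (ex i + 1)) (rep i) := by
      have h2 := hex (σ i)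
      rw [hrepσ] at h2
      rw [h2, add_comm, zpow_add, Equiv.Perm.mul_apply, hex i, zpow_one]
    have h3 : (σ ^ (ex (σ i) - (ex i + 1))) (rep i) = rep i := by
      rw [sub_eq_neg_add, zpow_add, Equiv.Perm.mul_apply, h1, ← Equiv.Perm.mul_apply, ← zpow_add]
      simp
    have h4 := horb (rep i) _ (sub_ne_zero.2 hne) h3
    apply hi
    have h5 : ∀ k : ℤ, (σ ^ k) (rep i) = rep i := fun k =>
      Equiv.Perm.zpow_apply_eq_self_of_apply_eq_self h4 k
    rw [← hex i, h5, h4]
  have hfixM : ∀ i, σ i = i → B i ≤ M0 := fun i hi =>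
    le_trans (le_iSup (fun i : {i // σ i = i} => B i) ⟨i, hi⟩) le_sup_left
  have hmem : ∀ i, ∀ b ∈ B i, (t ^ ex i)⁻¹ * b * (t ^ ex i) ∈ B (rep i) := by
    intro i b hb
    have h1 := conj_zpow hconj hconj' (-(ex i)) i b hb
    have h2 : (σ ^ (-(ex i))) i = rep i := by
      rw [zpow_neg, Equiv.Perm.inv_eq_iff_eq]
      exact (hex i).symm
    rw [h2] at h1
    simpa using h1
  let Φi : ∀ i, B i →* T := fun i => if h : σ i = i then
      (Coprod.inl : M0 →* T).comp (Subgroup.inclusion (hfixM i h))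
    else
      (MulAut.conj (τ ^ ex i)).toMonoidHom.comp ((Coprod.inr : C →* T).comp
        ((CoprodI.of (M := fun i => B i) (i := rep i)).comp
          { toFun := fun b => ⟨(t ^ ex i)⁻¹ * b * (t ^ ex i), hmem i b b.2⟩
            map_one' := by ext; simp
            map_mul' := fun x y => by ext; simp [mul_assoc] }))
  let ΦC : C →* T := CoprodI.lift Φi
  have hΦC : ∀ i (b : B i), ΦC (CoprodI.of b) = Φi i b := fun i b => CoprodI.lift_of _ _
  have hLof : ∀ i (b : B i), L (CoprodI.of b) = b := fun i b => CoprodI.lift_of _ _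
  have hcompat : ∀ c, ΦC (θ c) = τ * ΦC c * τ⁻¹ := by
    intro c
    have : ΦC.comp θ.toMonoidHom = (MulAut.conj τ).toMonoidHom.comp ΦC := by
      apply CoprodI.ext_hom
      intro i
      ext b
      show ΦC (θ (CoprodI.of b)) = τ * ΦC (CoprodI.of b) * τ⁻¹
      rw [theta_of, hΦC, hΦC]
      by_cases h : σ i = i
      · have h' : σ (σ i) = σ i := congrArg σ h
        simp only [Φi, dif_pos h, dif_pos h', MonoidHom.comp_apply, τ]
        rw [← map_inv, ← map_mul, ← map_mul]
        rfl
      · have h' : σ (σ i) ≠ σ i := fun e => h (σ.injective e)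
        simp only [Φi, dif_neg h, dif_neg h', MonoidHom.comp_apply]
        show τ ^ ex (σ i) * _ * (τ ^ ex (σ i))⁻¹ = τ * (τ ^ ex i * _ * (τ ^ ex i)⁻¹) * τ⁻¹
        have he : CoprodI.of (M := fun i => B i) (i := rep (σ i))
            ⟨(t ^ ex (σ i))⁻¹ * (t * b * t⁻¹) * (t ^ ex (σ i)), hmem _ _ (hconj i b b.2)⟩ =
            CoprodI.of (M := fun i => B i) (i := rep i)
              ⟨(t ^ ex i)⁻¹ * b * (t ^ ex i), hmem i b b.2⟩ := by
          refine of_congr (hrepσ i) ?_
          show (t ^ ex (σ i))⁻¹ * (t * b * t⁻¹) * (t ^ ex (σ i)) = (t ^ ex i)⁻¹ * b * (t ^ ex i)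
          rw [hexσ i h, zpow_add_one]; group
        have he2 : (τ : T) ^ ex (σ i) = τ * τ ^ ex i := by
          rw [hexσ i h, add_comm, zpow_add, zpow_one]
        simp only [MonoidHom.coe_mk, OneHom.coe_mk]
        rw [he, he2]; group
    exact DFunLike.congr_fun this c
  have hLθ : ∀ c, L (θ c) = t * L c * t⁻¹ := by
    intro c
    have : L.comp θ.toMonoidHom = (MulAut.conj t).toMonoidHom.comp L := by
      apply CoprodI.ext_hom
      intro i
      ext b
      show L (θ (CoprodI.of b)) = t * L (CoprodI.of b) * t⁻¹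
      rw [theta_of, hLof, hLof]
    exact DFunLike.congr_fun this c
  -- the semidirect product
  let φ : Multiplicative ℤ →* MulAut C := zpowersHom _ θ
  let e : C ⋊[φ] Multiplicative ℤ →* W := SemidirectProduct.lift L (zpowersHom W t) (by
    intro g
    ext c
    exact compat_zpow θ L t hLθ (Multiplicative.toAdd g) _)
  let Φ : C ⋊[φ] Multiplicative ℤ →* T := SemidirectProduct.lift ΦC (zpowersHom T τ) (by
    intro g
    ext c
    exact compat_zpow θ ΦC τ hcompat (Multiplicative.toAdd g) _)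
  let Ψ : T →* W := Coprod.lift M0.subtype L
  have hΨl : ∀ m : M0, Ψ (Coprod.inl m) = m := fun m => Coprod.lift_apply_inl _ _ _
  have hΨr : ∀ c : C, Ψ (Coprod.inr c) = L c := fun c => Coprod.lift_apply_inr _ _ _
  have hΨτ : Ψ τ = t := hΨl _
  have hΨΦ : Ψ.comp Φ = e := by
    apply SemidirectProduct.hom_ext
    · apply CoprodI.ext_hom
      intro i
      ext b
      show Ψ (Φ (SemidirectProduct.inl (CoprodI.of b))) = e (SemidirectProduct.inl (CoprodI.of b))
      simp only [Φ, e, SemidirectProduct.lift_inl]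
      rw [hΦC]
      rw [hLof]
      by_cases h : σ i = i
      · simp only [Φi, dif_pos h, MonoidHom.comp_apply]
        exact hΨl _
      · simp only [Φi, dif_neg h, MonoidHom.comp_apply]
        show Ψ (τ ^ ex i * Coprod.inr _ * (τ ^ ex i)⁻¹) = _
        rw [map_mul, map_mul, map_inv, map_zpow, hΨτ, hΨr, hLof]
        show t ^ ex i * ((t ^ ex i)⁻¹ * b * (t ^ ex i)) * (t ^ ex i)⁻¹ = b
        group
    · apply MonoidHom.ext_mint
      show Ψ (Φ (SemidirectProduct.inr (Multiplicative.ofAdd 1))) =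
        e (SemidirectProduct.inr (Multiplicative.ofAdd 1))
      simp only [Φ, e, SemidirectProduct.lift_inr]
      simp [hΨτ]
  have hL : L.range = ⨆ i, B i := by
    rw [CoprodI.range_eq_iSup]
    simp
  have hinj : Function.Injective e := by
    rw [injective_iff_map_eq_one]
    intro x hx
    have h1 : e x = L x.left * t ^ (Multiplicative.toAdd x.right) := by
      conv_lhs => rw [← SemidirectProduct.inl_left_mul_inr_right x]
      simp only [map_mul, e, SemidirectProduct.lift_inl, SemidirectProduct.lift_inr]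
      rfl
    rw [h1] at hx
    have h2 : Multiplicative.toAdd x.right = 0 := by
      apply hind
      rw [← hL]
      exact ⟨x.left⁻¹, by rw [map_inv]; exact (eq_inv_of_mul_eq_one_right hx).symm⟩
    rw [h2, zpow_zero, mul_one] at hx
    have h3 : x.left = 1 := hfree (by rw [map_one]; exact hx)
    apply SemidirectProduct.ext
    · exact h3
    · exact h2
  have hΦinj : Function.Injective Φ := by
    intro x y hxy
    apply hinj
    rw [← hΨΦ, MonoidHom.comp_apply, MonoidHom.comp_apply, hxy]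
  have hS : P (C ⋊[φ] Multiplicative ℤ) :=
    hP.of_injective Φ hΦinj (hP.coprod _ _ hfix (hP.coprodI _ hB))
  have hR : P e.range := hP.of_mulEquiv (MonoidHom.ofInjective hinj) hS
  refine hP.mono (sup_le ?_ ?_) hR
  · rw [← hL]
    rintro _ ⟨c, rfl⟩
    exact ⟨SemidirectProduct.inl c, by simp [e]⟩
  · rw [Subgroup.zpowers_le]
    exact ⟨SemidirectProduct.inr (Multiplicative.ofAdd 1), by simp [e]⟩

end Pool.Agent.helper28.GF
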