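import Pool.Agent.helper28.GF.GE2

set_option autoImplicit false

/-!
# `GL₂(F[T])` for a field `F`
-/

namespace Pool.Agent.helper28.GF

open Pool.Agent.helper16.FJ Monoid Matrix
open scoped OnePoint Polynomial

namespace Aug

variable {F R : Type} [Field F] [Ring R] [Algebra F R] (A : Aug F R)

theorem ka_uu (c : OnePoint F) (a : F) : (ka (uu c a : (Matrix (Fin 2) (Fin 2) F)ˣ) :
    (Matrix (Fin 2) (Fin 2) R)ˣ) = uu c (algebraMap F R a) := by
  apply Units.ext
  rw [ka_val, uu_val, uu_val]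
  ext i j
  rw [tens_apply, Matrix.add_apply, Matrix.add_apply, tens_apply, tens_apply, add_smul,
    Matrix.one_apply, Matrix.one_apply]
  congr 1
  · split_ifs <;> simp
  · rw [smul_eq_mul, mul_smul, Algebra.algebraMap_eq_smul_one]

/-- all elementary matrices are in the group -/
theorem uu_mem (c : OnePoint F) (x : R) : (uu c x : (Matrix (Fin 2) (Fin 2) R)ˣ) ∈ A.V := by
  have h1 : x = (x - algebraMap F R (A.ε x)) + algebraMap F R (A.ε x) := by abel
  rw [h1, ← uu_mul, ← ka_uu]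
  refine mul_mem ((le_sup_left : A.N ≤ A.V) ?_) ((le_sup_right : _ ≤ A.V) ⟨_, rfl⟩)
  refine (le_iSup (fun c => (A.uH c).range) c) ⟨Multiplicative.ofAdd
    ⟨x - algebraMap F R (A.ε x), ?_⟩, rfl⟩
  rw [LinearMap.mem_ker]
  show A.ε (x - algebraMap F R (A.ε x)) = 0
  rw [map_sub, AlgHom.commutes, Algebra.algebraMap_self_apply, sub_self]

end Aug

section poly

variable (F : Type) [Field F]

/-- the polynomial ring as an augmented algebra -/
noncomputable def polyAug : Aug F F[X] where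
  ε := Polynomial.aeval 0
  d := Polynomial.degree
  d_mul := fun _ _ => Polynomial.degree_mul
  d_add := Polynomial.degree_add_le
  d_bot := fun _ => Polynomial.degree_eq_bot
  d_const := fun _ => Polynomial.degree_C_le
  d_pos := by
    intro p hp hp0
    by_contra h
    push Not at h
    rw [Polynomial.eq_C_of_degree_le_zero h] at hp hp0
    rw [Polynomial.aeval_C] at hp
    apply hp0
    rw [Algebra.algebraMap_self_apply] at hp
    rw [hp, Polynomial.C_0]

/-- the swap -/
def swp : GL (Fin 2) F where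
  val := !![0, 1; 1, 0]
  inv := !![0, 1; 1, 0]
  val_inv := by ext i j; fin_cases i <;> fin_cases j <;> simp
  inv_val := by ext i j; fin_cases i <;> fin_cases j <;> simp

/-- diagonal matrices -/
def dgl (a b : F) (ha : a ≠ 0) (hb : b ≠ 0) : GL (Fin 2) F where
  val := !![a, 0; 0, b]
  inv := !![a⁻¹, 0; 0, b⁻¹]
  val_inv := by ext i j; fin_cases i <;> fin_cases j <;> simp [ha, hb]
  inv_val := by ext i j; fin_cases i <;> fin_cases j <;> simp [ha, hb]

theorem uu_inf_val (x : F[X]) : ((Aug.uu (∞ : OnePoint F) x : (Matrix (Fin 2) (Fin 2) F[X])ˣ) :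
    Matrix (Fin 2) (Fin 2) F[X]) = !![1, x; 0, 1] := by
  rw [Aug.uu_val]
  ext1 i j
  rw [Matrix.add_apply, tens_apply]
  fin_cases i <;> fin_cases j <;> simp [nl, vc_infty, cv_infty]

theorem ka_swp_val : ((ka (swp F) : (Matrix (Fin 2) (Fin 2) F[X])ˣ) :
    Matrix (Fin 2) (Fin 2) F[X]) = !![0, 1; 1, 0] := by
  rw [ka_val]
  ext1 i j
  rw [tens_apply]
  fin_cases i <;> fin_cases j <;> simp [swp]

theorem ka_dgl_val (a b : F) (ha : a ≠ 0) (hb : b ≠ 0) :
    ((ka (dgl F a b ha hb) : (Matrix (Fin 2) (Fin 2) F[X])ˣ) :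
    Matrix (Fin 2) (Fin 2) F[X]) = !![Polynomial.C a, 0; 0, Polynomial.C b] := by
  rw [ka_val]
  ext1 i j
  rw [tens_apply]
  fin_cases i <;> fin_cases j <;> simp [dgl, Polynomial.smul_eq_C_mul]

theorem poly_mem (b : F[X]) : ∀ M : (Matrix (Fin 2) (Fin 2) F[X])ˣ,
    (M : Matrix (Fin 2) (Fin 2) F[X]) 1 0 = b → M ∈ (polyAug F).V := by
  classical
  induction b using (EuclideanDomain.r_wellFounded (R := F[X])).induction with
  | _ b ih =>
  intro M hM
  by_cases hb : b = 0
  · rw [hb] at hM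
    have e1 := congrFun (congrFun (Units.mul_inv M) 1) 1
    have e2 := congrFun (congrFun (Units.inv_mul M) 0) 0
    simp only [Matrix.mul_apply, Fin.sum_univ_two, Matrix.one_apply, hM, zero_mul, mul_zero,
      zero_add, add_zero, if_true] at e1 e2
    have u1 : IsUnit ((M : Matrix (Fin 2) (Fin 2) F[X]) 1 1) := IsUnit.of_mul_eq_one _ e1
    have u2 : IsUnit ((M : Matrix (Fin 2) (Fin 2) F[X]) 0 0) := IsUnit.of_mul_eq_one_right _ e2
    rw [Polynomial.isUnit_iff] at u1 u2
    obtain ⟨d, hd, hd'⟩ := u1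
    obtain ⟨a, ha, ha'⟩ := u2
    have ha0 := ha.ne_zero
    have hd0 := hd.ne_zero
    have : M = Aug.uu (∞ : OnePoint F) ((M : Matrix (Fin 2) (Fin 2) F[X]) 0 1 * Polynomial.C d⁻¹) *
        ka (dgl F a d ha0 hd0) := by
      apply Units.ext
      rw [Units.val_mul, uu_inf_val, ka_dgl_val, Matrix.mul_fin_two]
      rw [Matrix.eta_fin_two (M : Matrix (Fin 2) (Fin 2) F[X]), hM, ← ha', ← hd']
      have : (M : Matrix (Fin 2) (Fin 2) F[X]) 0 1 * Polynomial.C d⁻¹ * Polynomial.C d =
          (M : Matrix (Fin 2) (Fin 2) F[X]) 0 1 := by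
        rw [mul_assoc, ← Polynomial.C_mul, inv_mul_cancel₀ hd0, Polynomial.C_1, mul_one]
      simp [this]
    rw [this]
    exact mul_mem ((polyAug F).uu_mem _ _) ((le_sup_right : _ ≤ (polyAug F).V) ⟨_, rfl⟩)
  · let q := (M : Matrix (Fin 2) (Fin 2) F[X]) 0 0 / b
    have h1 := ih ((M : Matrix (Fin 2) (Fin 2) F[X]) 0 0 % b) (EuclideanDomain.mod_lt _ hb)
      (ka (swp F) * Aug.uu (∞ : OnePoint F) (-q) * M) (by
        have e := EuclideanDomain.mod_eq_sub_mul_div ((M : Matrix (Fin 2) (Fin 2) F[X]) 0 0) b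
        rw [Units.val_mul, Units.val_mul, uu_inf_val, ka_swp_val, Matrix.mul_fin_two]
        rw [Matrix.mul_apply, Fin.sum_univ_two, hM, e]
        simp [q]
        ring)
    have h2 : M = (Aug.uu (∞ : OnePoint F) (-q))⁻¹ * (ka (swp F))⁻¹ *
        (ka (swp F) * Aug.uu (∞ : OnePoint F) (-q) * M) := by group
    rw [h2]
    exact mul_mem (mul_mem (inv_mem ((polyAug F).uu_mem _ _))
      (inv_mem ((le_sup_right : _ ≤ (polyAug F).V) ⟨_, rfl⟩))) h1

theorem field_case {P : ∀ (G : Type) [Group G], Prop} (hP : Cls P)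
    (G : Subgroup (GL (Fin 2) F[X]))
    (h : P (G.map (Matrix.GeneralLinearGroup.map (Polynomial.evalRingHom 0)))) : P G := by
  refine (polyAug F).main hP G (fun M _ => poly_mem F _ M rfl) ?_
  have e : (polyAug F).pi = Matrix.GeneralLinearGroup.map (Polynomial.evalRingHom 0) := by
    apply MonoidHom.ext
    intro M
    apply Units.ext
    ext i j
    show Polynomial.aeval 0 (M i j) = Polynomial.eval 0 (M i j)
    rw [Polynomial.coe_aeval_eq_eval]
  rw [e]
  exact h

end poly

end Pool.Agent.helper28.GF
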